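import Pool.Agent.Helper8.UV.Defs

/-!
# Threshold circuits with unbounded weights and unbounded fan-in: the voters

`PTree n d B D`: decision trees with at most `B` probes and at most `D` sign queries of real
polynomials of degree at most `d` in all the weights. `Price3`: the price of a voter. The functions
of a few additive threshold gates (`IsJunta`) are defined in `Helper8/UV/Defs.lean`.
-/

set_option autoImplicit false

open Finset
open scoped BigOperators

namespace Pool.Agent.Helper21.UV3

open Pool.Agent.Helper22.ETModel Pool.Agent.Helper8.VT Pool.Agent.Helper8.UV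

/-- Decision trees with at most `B` probes and at most `D` sign queries. A probe reads the weight
in one cell. A sign query asks whether `p(w) ≥ 0`, where `p` is a real polynomial of degree at most
`d`, whose variables are the weights in all the cells. The further course depends in an arbitrary
way on the answers. A leaf carries the output. -/
inductive PTree (n d : ℕ) : ℕ → ℕ → Type
  | leaf {B D : ℕ} (v : ℝ) : PTree n d B D
  | probe {B D : ℕ} (i j : Fin n) (next : ℤ → PTree n d B D) : PTree n d (B + 1) D
  | sign {B D : ℕ} (p : MvPolynomial (Fin n × Fin n) ℝ) (hp : p.totalDegree ≤ d)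
      (next : Bool → PTree n d B D) : PTree n d B (D + 1)

/-- The value of a polynomial at the weights `w`. -/
noncomputable def pval {n : ℕ} (p : MvPolynomial (Fin n × Fin n) ℝ) (w : Wts n) : ℝ :=
  MvPolynomial.eval (fun c => (w c.1 c.2 : ℝ)) p

open Classical in
/-- The output of a tree on the weights `w`. -/
noncomputable def PTree.eval {n d : ℕ} : {B D : ℕ} → PTree n d B D → Wts n → ℝ
  | _, _, .leaf v, _ => v
  | _, _, .probe i j next, w => (next (w i j)).eval w
  | _, _, .sign p _ next, w => (next (decide (0 ≤ pval p w))).eval w

/-- `H` is computed by trees with at most `B` probes and at most `D` sign queries of degree at most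
`d`, which know the flags. -/
def IsReader {n : ℕ} (d B D : ℕ) (H : Inst n → ℝ) : Prop :=
  ∃ t : Flags n → PTree n d B D, ∀ I : Inst n, I.Valid → H I = (t I.flag).eval I.wt

/-- `κ` is the price of the voter `H`: `0` for a voter that does not depend on the weights,
`(B + D) ^ (3/2)` for a decision tree with `B` probes and `D ≤ s * (log n + 1)` sign queries of
degree at most `d` and arbitrary real outputs, `√k * W` for a function of `k` additive threshold
gates with `W` wires. -/
def Price3 {n : ℕ} (d s : ℕ) (H : Inst n → ℝ) (κ : ℝ) : Prop :=
  (κ = 0 ∧ ∃ F : Flags n → ℝ, ∀ I : Inst n, I.Valid → H I = F I.flag) ∨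
    (∃ B D : ℕ, 1 ≤ B + D ∧ D ≤ s * (Nat.log 2 n + 1) ∧ IsReader d B D H ∧
      κ = ((B + D : ℕ) : ℝ) ^ (3 / 2 : ℝ)) ∨
    ∃ k W : ℕ, 1 ≤ k ∧ 1 ≤ W ∧ IsJunta k W H ∧ κ = Real.sqrt k * W

end Pool.Agent.Helper21.UV3
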