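import Pool.Agent.Helper21.UV3.Prob
import Pool.Agent.Helper8.UV3.Anti

/-!
# Anticoncentration for the polynomials of the reading phases
-/

set_option autoImplicit false
set_option linter.unusedSectionVars false

open Finset
open scoped BigOperators

namespace Pool.Agent.Helper21.UV3

open Pool.Agent.Helper22.ETModel Pool.Agent.Helper8.VT Pool.Agent.Helper8.UV
open Pool.Agent.Helper21.UV

section
variable {n m q P : ℕ} [NeZero q]

theorem antiS {d K : ℕ} (hq : 11 * q ≤ P) (hK : 0 < K) (hKP : K ≤ P) {Λ : ℝ}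
    (hΛ : 8 * ((Fintype.card (Key m) + 1 : ℕ) : ℝ) ^ d ≤ Λ) (X Y Z : Cfg m q) :
    AntiS n d q P m Λ (1 / 2 * ((K : ℝ) / (7 * P)) ^ (d * d)) (d * d * K / (10 * P)) X Y Z := by
  classical
  intro p hp A μ0 s hs
  obtain ⟨t1, t2, t3⟩ := topm_some hs
  have h := Pool.Agent.Helper8.UV3.anti hq hK hKP A μ0 X Y Z (RR m q A (tot q P μ0 X Y Z) p)
    (fun u hu => RR_deg A _ p hp u hu) s t1
    (fun e he hA => (Finsupp.mem_support_iff.1 he) (RR_vars A _ p s t1 e hA)) Λ hΛ t3
  refine le_trans (le_of_eq ?_) h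
  congr 1
  refine congrArg Finset.card (Finset.filter_congr fun μ hμ => ?_)
  rw [pval_WM, RR_eval (tot_fib hμ X Y Z) p]
  rfl

end

end Pool.Agent.Helper21.UV3
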