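import Pool.Agent.Helper21.UV3.Mom

/-!
# The probability of an exceptional run
-/

set_option autoImplicit false
set_option linter.unusedSectionVars false

open Finset
open scoped BigOperators

namespace Pool.Agent.Helper21.UV3

open Pool.Agent.Helper22.ETModel Pool.Agent.Helper8.VT Pool.Agent.Helper8.UV
open Pool.Agent.Helper21.UV

section
variable {n m q P : ℕ}

/-- The factor for the exhaustion of a phase. -/
noncomputable def zetd (d : ℕ) : ℝ := 1 - (1 / 20) ^ d / 2

theorem zetd_nonneg (d : ℕ) : 0 ≤ zetd d := by
  unfold zetd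
  have : (1 / 20 : ℝ) ^ d ≤ 1 := pow_le_one₀ (by norm_num) (by norm_num)
  linarith

theorem zetd_step (d j : ℕ) (hj : j + 1 ≤ d) :
    20 - (1 / 20) ^ j ≤ zetd d * (10 * (2 - (1 / 20) ^ (j + 1))) := by
  unfold zetd
  have h1 : (1 / 20 : ℝ) ^ d ≤ (1 / 20) ^ (j + 1) :=
    pow_le_pow_of_le_one (by norm_num) (by norm_num) hj
  have h2 : (0 : ℝ) < (1 / 20) ^ d := by positivity
  rw [pow_succ] at h1 ⊢
  have h4 : (0 : ℝ) < (1 / 20) ^ j := by positivity
  nlinarith [mul_pos h2 h4]

/-- The expected number of chosen monomials. -/
noncomputable def sel (d : ℕ) (l : List (Key m)) : ℝ :=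
  if l = [] then 10 ^ d else 10 ^ d - 10 ^ (d - l.length)

theorem sel_nonneg (d : ℕ) (l : List (Key m)) : 0 ≤ sel d l := by
  unfold sel
  split_ifs
  · positivity
  · have : (10 : ℝ) ^ (d - l.length) ≤ 10 ^ d := pow_le_pow_right₀ (by norm_num) (by omega)
    linarith

variable [NeZero q]

open Classical in
/-- Anticoncentration: for every polynomial of degree at most `d` and every chosen monomial. -/
def AntiS (n d : ℕ) (q P : ℕ) [NeZero q] (m : ℕ) (Λ ω ε : ℝ) (X Y Z : Cfg m q) : Prop :=
  ∀ p : MvPolynomial (Fin n × Fin n) ℝ, p.totalDegree ≤ d → ∀ (A : Finset (Key m))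
    (μ0 : Key m → Fin (10 * P)) (s : Key m →₀ ℕ),
    topm Λ P (RR m q A (tot q P μ0 X Y Z) p) = some s →
    (((fib A μ0).filter fun μ => (∀ e ∈ s.support, (μ e : ℕ) < P) ∧
      |pval p (WM n P μ X Y Z)| ≤ thr ω P (RR m q A (tot q P μ0 X Y Z) p) s).card : ℝ) ≤
      ε * (fib A μ0).card

open Classical in
theorem phase_prob {d : ℕ} (Λ ω ε : ℝ) (hε0 : 0 ≤ ε) (X Y Z : Cfg m q)
    (hanti : AntiS n d q P m Λ ω ε X Y Z) (p : MvPolynomial (Fin n × Fin n) ℝ)
    (hp : p.totalDegree ≤ d)
    (nxt : (Key m → Fin (10 * P)) → Finset (Key m) → Prop) (b : ℝ)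
    (hb : ∀ (A : Finset (Key m)) (μ0 : Key m → Fin (10 * P)),
      (((fib A μ0).filter fun μ => nxt μ A).card : ℝ) ≤ b * (fib A μ0).card) :
    ∀ (f : ℕ) (A : Finset (Key m)) (l : List (Key m)) (μ0 : Key m → Fin (10 * P)),
      l.Nodup → (∀ e ∈ l, e ∉ A) → l.length ≤ d →
      (((fib A μ0).filter fun μ => phaseP q P Λ ω μ (tot q P μ X Y Z) p
        (pval p (WM n P μ X Y Z)) (nxt μ) f A l).card : ℝ) ≤
        (zetd d ^ f * pot l + ε * sel d l + b) * (fib A μ0).card := by
  have hb0 : ∀ (A : Finset (Key m)) (μ0 : Key m → Fin (10 * P)),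
      0 ≤ b * (fib A μ0).card := fun A μ0 => le_trans (Nat.cast_nonneg _) (hb A μ0)
  have hz := zetd_nonneg d
  intro f
  induction f with
  | zero =>
    intro A l μ0 _ _ _
    have h1 : (((fib A μ0).filter fun μ => phaseP q P Λ ω μ (tot q P μ X Y Z) p
        (pval p (WM n P μ X Y Z)) (nxt μ) 0 A l).card : ℝ) ≤ (fib A μ0).card := by
      exact_mod_cast Finset.card_filter_le _ _
    have h2 := hb0 A μ0
    have h3 : 0 ≤ ε * sel d l * (fib A μ0).card :=
      mul_nonneg (mul_nonneg hε0 (sel_nonneg d l)) (Nat.cast_nonneg _)
    have h4 := one_le_pot l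
    have h5 : (0 : ℝ) ≤ (fib A μ0).card := Nat.cast_nonneg _
    rw [pow_zero]
    nlinarith
  | succ f ih =>
    intro A l μ0 hnd hA hlen
    have hN0 : (0 : ℝ) ≤ (fib A μ0).card := Nat.cast_nonneg _
    have hzf : (0 : ℝ) ≤ zetd d ^ f := pow_nonneg hz f
    rcases l with _ | ⟨e, l⟩
    · have hpot : pot ([] : List (Key m)) = 2 := by simp [pot]
      have hsel : sel d ([] : List (Key m)) = 10 ^ d := by simp [sel]
      rcases htop : topm Λ P (RR m q A (tot q P μ0 X Y Z) p) with _ | s
      · have h1 : ((fib A μ0).filter fun μ => phaseP q P Λ ω μ (tot q P μ X Y Z) p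
            (pval p (WM n P μ X Y Z)) (nxt μ) (f + 1) A []) =
            (fib A μ0).filter fun μ => nxt μ A := by
          refine Finset.filter_congr fun μ hμ => ?_
          unfold phaseP
          rw [RR_congr (tot_fib hμ X Y Z) p, htop]
        rw [h1, hpot, hsel]
        refine (hb A μ0).trans ?_
        have h3 : 0 ≤ (zetd d ^ (f + 1) * 2 + ε * 10 ^ d) * ((fib A μ0).card : ℝ) := by positivity
        nlinarith
      · obtain ⟨t1, t2, t3, t4⟩ := top_list hp htop
        have h1 : ((fib A μ0).filter fun μ => phaseP q P Λ ω μ (tot q P μ X Y Z) p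
            (pval p (WM n P μ X Y Z)) (nxt μ) (f + 1) A []) ⊆
            ((fib A μ0).filter fun μ => (∀ e ∈ s.support, (μ e : ℕ) < P) ∧
              |pval p (WM n P μ X Y Z)| ≤ thr ω P (RR m q A (tot q P μ0 X Y Z) p) s) ∪
            ((fib A μ0).filter fun μ => phaseP q P Λ ω μ (tot q P μ X Y Z) p
              (pval p (WM n P μ X Y Z)) (nxt μ) f A s.support.toList) := by
          intro μ hμ
          rw [Finset.mem_filter] at hμ
          obtain ⟨h2, h3⟩ := hμ
          unfold phaseP at h3
          rw [RR_congr (tot_fib h2 X Y Z) p, htop] at h3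
          rw [Finset.mem_union, Finset.mem_filter, Finset.mem_filter]
          rcases h3 with h3 | h3
          · exact Or.inl ⟨h2, h3⟩
          · exact Or.inr ⟨h2, h3⟩
        have h5 := (Finset.card_le_card h1).trans (Finset.card_union_le _ _)
        have h6 := hanti p hp A μ0 s htop
        have h7 := ih A s.support.toList μ0 t1 t2 t3
        have h8 : (((fib A μ0).filter fun μ => phaseP q P Λ ω μ (tot q P μ X Y Z) p
            (pval p (WM n P μ X Y Z)) (nxt μ) (f + 1) A []).card : ℝ) ≤
            (((fib A μ0).filter fun μ => (∀ e ∈ s.support, (μ e : ℕ) < P) ∧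
              |pval p (WM n P μ X Y Z)| ≤
                thr ω P (RR m q A (tot q P μ0 X Y Z) p) s).card : ℝ) +
            (((fib A μ0).filter fun μ => phaseP q P Λ ω μ (tot q P μ X Y Z) p
              (pval p (WM n P μ X Y Z)) (nxt μ) f A s.support.toList).card : ℝ) := by
          exact_mod_cast h5
        have g1 : zetd d ^ f * pot s.support.toList ≤ zetd d ^ (f + 1) * 2 := by
          rw [pow_succ, mul_assoc]
          refine mul_le_mul_of_nonneg_left ?_ hzf
          unfold pot zetd
          rw [if_neg t4]
          have : (1 / 20 : ℝ) ^ d ≤ (1 / 20) ^ s.support.toList.length :=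
            pow_le_pow_of_le_one (by norm_num) (by norm_num) t3
          linarith
        have g2 : ε + ε * sel d s.support.toList ≤ ε * 10 ^ d := by
          unfold sel
          rw [if_neg t4]
          have : (1 : ℝ) ≤ 10 ^ (d - s.support.toList.length) := one_le_pow₀ (by norm_num)
          nlinarith
        rw [hpot, hsel]
        calc (((fib A μ0).filter fun μ => phaseP q P Λ ω μ (tot q P μ X Y Z) p
            (pval p (WM n P μ X Y Z)) (nxt μ) (f + 1) A []).card : ℝ)
            ≤ ε * (fib A μ0).card + (zetd d ^ f * pot s.support.toList +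
              ε * sel d s.support.toList + b) * (fib A μ0).card := h8.trans (add_le_add h6 h7)
          _ = (zetd d ^ f * pot s.support.toList + (ε + ε * sel d s.support.toList) + b) *
              (fib A μ0).card := by ring
          _ ≤ (zetd d ^ (f + 1) * 2 + ε * 10 ^ d + b) * (fib A μ0).card := by
              refine mul_le_mul_of_nonneg_right ?_ hN0
              linarith
    · have he1 : e ∉ A := hA e (List.mem_cons_self ..)
      have hnd' : l.Nodup := (List.nodup_cons.1 hnd).2
      have hel : e ∉ l := (List.nodup_cons.1 hnd).1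
      have hA' : ∀ e' ∈ l, e' ∉ insert e A := by
        intro e' he' h
        rcases Finset.mem_insert.1 h with h | h
        · rw [h] at he'; exact hel he'
        · exact hA e' (List.mem_cons_of_mem _ he') h
      have hlen' : l.length + 1 ≤ d := by simpa using hlen
      set N' : ℝ := ((fib (insert e A) μ0).card : ℝ) with hN'
      have hcard : ∀ x, ((fib (insert e A) (Function.update μ0 e x)).card : ℝ) = N' := by
        intro x
        rw [hN', card_fib, card_fib]
      have hN : (10 * P : ℝ) * N' = (fib A μ0).card := by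
        have := card_fib_insert he1 μ0 μ0
        rw [hN']
        exact_mod_cast this
      have hN0' : 0 ≤ N' := Nat.cast_nonneg _
      rw [fib_partition he1]
      push_cast
      rw [← Finset.sum_filter_add_sum_filter_not univ (fun x : Fin (10 * P) => (x : ℕ) < P)]
      have hbig : ∀ x ∈ univ.filter (fun x : Fin (10 * P) => (x : ℕ) < P),
          (((fib (insert e A) (Function.update μ0 e x)).filter fun μ =>
            phaseP q P Λ ω μ (tot q P μ X Y Z) p (pval p (WM n P μ X Y Z)) (nxt μ)
              (f + 1) A (e :: l)).card : ℝ) ≤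
          (zetd d ^ f * (2 - (1 / 20) ^ l.length) + ε * (10 ^ d - 10 ^ (d - l.length)) + b) *
            N' := by
        intro x hx
        rw [Finset.mem_filter] at hx
        have h1 : ((fib (insert e A) (Function.update μ0 e x)).filter fun μ =>
            phaseP q P Λ ω μ (tot q P μ X Y Z) p (pval p (WM n P μ X Y Z)) (nxt μ)
              (f + 1) A (e :: l)) =
            ((fib (insert e A) (Function.update μ0 e x)).filter fun μ =>
            if l = [] then nxt μ (insert e A) else
              phaseP q P Λ ω μ (tot q P μ X Y Z) p (pval p (WM n P μ X Y Z)) (nxt μ)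
              f (insert e A) l) := by
          refine Finset.filter_congr fun μ hμ => ?_
          have h4 : μ e = x := by
            have := mem_fib.1 hμ e (Finset.mem_insert_self _ _)
            rwa [Function.update_self] at this
          conv_lhs => unfold phaseP
          rw [if_pos (by rw [h4]; exact hx.2)]
        rw [h1]
        by_cases hl : l = []
        · simp only [if_pos hl]
          have h6 := hb (insert e A) (Function.update μ0 e x)
          rw [hcard] at h6
          rw [hl]
          simp only [List.length_nil, pow_zero, Nat.sub_zero, sub_self, mul_zero, add_zero]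
          have : 0 ≤ zetd d ^ f * (2 - 1) * N' := by
            have : (0 : ℝ) ≤ 2 - 1 := by norm_num
            positivity
          linarith
        · simp only [if_neg hl]
          have := ih (insert e A) l (Function.update μ0 e x) hnd' hA' (by omega)
          rw [hcard] at this
          unfold pot sel at this
          rwa [if_neg hl, if_neg hl] at this
      have hsmall : ∀ x ∈ univ.filter (fun x : Fin (10 * P) => ¬ (x : ℕ) < P),
          (((fib (insert e A) (Function.update μ0 e x)).filter fun μ =>
            phaseP q P Λ ω μ (tot q P μ X Y Z) p (pval p (WM n P μ X Y Z)) (nxt μ)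
              (f + 1) A (e :: l)).card : ℝ) ≤
          (zetd d ^ f * 2 + ε * 10 ^ d + b) * N' := by
        intro x hx
        rw [Finset.mem_filter] at hx
        have h1 : ((fib (insert e A) (Function.update μ0 e x)).filter fun μ =>
            phaseP q P Λ ω μ (tot q P μ X Y Z) p (pval p (WM n P μ X Y Z)) (nxt μ)
              (f + 1) A (e :: l)) =
            ((fib (insert e A) (Function.update μ0 e x)).filter fun μ =>
              phaseP q P Λ ω μ (tot q P μ X Y Z) p (pval p (WM n P μ X Y Z)) (nxt μ)
              f (insert e A) []) := by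
          refine Finset.filter_congr fun μ hμ => ?_
          have h4 : μ e = x := by
            have := mem_fib.1 hμ e (Finset.mem_insert_self _ _)
            rwa [Function.update_self] at this
          conv_lhs => unfold phaseP
          rw [if_neg (by rw [h4]; exact hx.2)]
        rw [h1]
        have := ih (insert e A) [] (Function.update μ0 e x) List.nodup_nil
          (fun e' he' => by simp at he') (by simp)
        rw [hcard] at this
        have hpot : pot ([] : List (Key m)) = 2 := by simp [pot]
        have hsel : sel d ([] : List (Key m)) = 10 ^ d := by simp [sel]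
        rwa [hpot, hsel] at this
      have s1 := Finset.sum_le_sum hbig
      have s2 := Finset.sum_le_sum hsmall
      rw [Finset.sum_const, card_small, nsmul_eq_mul] at s1
      rw [Finset.sum_const, card_large, nsmul_eq_mul] at s2
      push_cast at s2
      refine (add_le_add s1 s2).trans ?_
      have hsel : sel d (e :: l) = 10 ^ d - 10 ^ (d - (l.length + 1)) := by
        unfold sel
        rw [if_neg (by simp)]
        rfl
      rw [← hN, pot_cons, hsel]
      have hstep := zetd_step d l.length hlen'
      have h10 : (10 : ℝ) ^ (d - l.length) = 10 * 10 ^ (d - (l.length + 1)) := by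
        rw [← pow_succ']
        congr 1
        omega
      have hPN : 0 ≤ (P : ℝ) * N' := by positivity
      calc (P : ℝ) * ((zetd d ^ f * (2 - (1 / 20) ^ l.length) +
              ε * (10 ^ d - 10 ^ (d - l.length)) + b) * N') +
            9 * P * ((zetd d ^ f * 2 + ε * 10 ^ d + b) * N')
          = (zetd d ^ f * (20 - (1 / 20) ^ l.length) +
              ε * (10 * 10 ^ d - 10 ^ (d - l.length)) + 10 * b) * (P * N') := by ring
        _ ≤ (zetd d ^ f * (zetd d * (10 * (2 - (1 / 20) ^ (l.length + 1)))) +
              ε * (10 * 10 ^ d - 10 ^ (d - l.length)) + 10 * b) * (P * N') := by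
            refine mul_le_mul_of_nonneg_right ?_ hPN
            have := mul_le_mul_of_nonneg_left hstep hzf
            linarith
        _ = _ := by
            rw [h10, pow_succ]
            ring

open Classical in
/-- The probability of an exceptional run. -/
theorem tree_prob {d : ℕ} (Λ ω ε : ℝ) (hε0 : 0 ≤ ε) (c1 : ℕ) (X Y Z : Cfg m q)
    (hanti : AntiS n d q P m Λ ω ε X Y Z) {B D : ℕ} (t : PTree n d B D) :
    ∀ (A : Finset (Key m)) (μ0 : Key m → Fin (10 * P)),
      (((fib A μ0).filter fun μ => t.excN c1 q P Λ ω μ (WM n P μ X Y Z)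
        (tot q P μ X Y Z) A).card : ℝ) ≤
        ((2 ^ D - 1) * (zetd d ^ c1 * 2 + ε * 10 ^ d)) * (fib A μ0).card := by
  have hz := zetd_nonneg d
  set δ : ℝ := zetd d ^ c1 * 2 + ε * 10 ^ d with hδ
  have hδ0 : 0 ≤ δ := by positivity
  have hD : ∀ D : ℕ, (0 : ℝ) ≤ 2 ^ D - 1 := fun D => by
    have : (1 : ℝ) ≤ 2 ^ D := one_le_pow₀ (by norm_num)
    linarith
  induction t with
  | @leaf B D v =>
    intro A μ0
    have h : ((fib A μ0).filter fun μ =>
        (PTree.leaf v : PTree n d B D).excN c1 q P Λ ω μ (WM n P μ X Y Z)
          (tot q P μ X Y Z) A) = ∅ := by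
      refine Finset.filter_false_of_mem fun μ _ => ?_
      simp [PTree.excN]
    rw [h]
    simp only [Finset.card_empty, Nat.cast_zero]
    exact mul_nonneg (mul_nonneg (hD D) hδ0) (Nat.cast_nonneg _)
  | @probe B D i j next ih =>
    intro A μ0
    rcases hc : key m i j with _ | ⟨e, c⟩
    · have h : ((fib A μ0).filter fun μ =>
          (PTree.probe i j next).excN c1 q P Λ ω μ (WM n P μ X Y Z) (tot q P μ X Y Z) A) =
          ((fib A μ0).filter fun μ => (next (10 * q)).excN c1 q P Λ ω μ (WM n P μ X Y Z)
            (tot q P μ X Y Z) A) := by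
        refine Finset.filter_congr fun μ _ => ?_
        simp only [PTree.excN, addKey, hc, WM_none μ X Y Z i j hc]
      rw [h]
      exact ih _ A μ0
    · by_cases he : e ∈ A
      · have h : ((fib A μ0).filter fun μ =>
            (PTree.probe i j next).excN c1 q P Λ ω μ (WM n P μ X Y Z) (tot q P μ X Y Z) A) =
            ((fib A μ0).filter fun μ =>
              (next (mac q P μ0 e + (val3 X Y Z e).val - cpy m q i j)).excN c1 q P Λ ω μ
                (WM n P μ X Y Z) (tot q P μ X Y Z) A) := by
          refine Finset.filter_congr fun μ hμ => ?_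
          simp only [PTree.excN, addKey, hc, Finset.insert_eq_of_mem he,
            WM_const he X Y Z i j c hc hμ]
        rw [h]
        exact ih _ A μ0
      · rw [fib_partition he]
        push_cast
        have h1 : ∀ x ∈ (univ : Finset (Fin (10 * P))),
            (((fib (insert e A) (Function.update μ0 e x)).filter fun μ =>
              (PTree.probe i j next).excN c1 q P Λ ω μ (WM n P μ X Y Z)
                (tot q P μ X Y Z) A).card : ℝ) ≤
            ((2 ^ D - 1) * δ) * (fib (insert e A) μ0).card := by
          intro x _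
          have h : ((fib (insert e A) (Function.update μ0 e x)).filter fun μ =>
              (PTree.probe i j next).excN c1 q P Λ ω μ (WM n P μ X Y Z)
                (tot q P μ X Y Z) A) =
              ((fib (insert e A) (Function.update μ0 e x)).filter fun μ =>
                (next (mac q P (Function.update μ0 e x) e + (val3 X Y Z e).val -
                  cpy m q i j)).excN c1 q P Λ ω μ (WM n P μ X Y Z) (tot q P μ X Y Z)
                    (insert e A)) := by
            refine Finset.filter_congr fun μ hμ => ?_
            simp only [PTree.excN, addKey, hc,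
              WM_const (Finset.mem_insert_self e A) X Y Z i j c hc hμ]
          rw [h]
          have h2 := ih (mac q P (Function.update μ0 e x) e + (val3 X Y Z e).val -
            cpy m q i j) (insert e A) (Function.update μ0 e x)
          have h3 : (fib (insert e A) (Function.update μ0 e x)).card =
              (fib (insert e A) μ0).card := by rw [card_fib, card_fib]
          rwa [h3] at h2
        refine (Finset.sum_le_sum h1).trans (le_of_eq ?_)
        rw [Finset.sum_const, Finset.card_univ, Fintype.card_fin, nsmul_eq_mul]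
        have := card_fib_insert he μ0 μ0
        have h4 : ((10 * P : ℕ) : ℝ) * ((fib (insert e A) μ0).card : ℝ) = (fib A μ0).card := by
          exact_mod_cast this
        rw [← h4]
        ring
  | @sign B D p hp next ih =>
    intro A μ0
    obtain ⟨nxt, hnxt⟩ : ∃ nxt : (Key m → Fin (10 * P)) → Finset (Key m) → Prop,
        ∀ μ A, nxt μ A ↔ ∃ b : Bool, (next b).excN c1 q P Λ ω μ (WM n P μ X Y Z)
          (tot q P μ X Y Z) A :=
      ⟨fun μ A => ∃ b : Bool, (next b).excN c1 q P Λ ω μ (WM n P μ X Y Z)
        (tot q P μ X Y Z) A, fun _ _ => Iff.rfl⟩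
    have hb : ∀ (A : Finset (Key m)) (μ0 : Key m → Fin (10 * P)),
        (((fib A μ0).filter fun μ => nxt μ A).card : ℝ) ≤
          (2 * ((2 ^ D - 1) * δ)) * (fib A μ0).card := by
      intro A μ0
      have h1 : ((fib A μ0).filter fun μ => nxt μ A) ⊆
          ((fib A μ0).filter fun μ => (next true).excN c1 q P Λ ω μ (WM n P μ X Y Z)
            (tot q P μ X Y Z) A) ∪
          ((fib A μ0).filter fun μ => (next false).excN c1 q P Λ ω μ (WM n P μ X Y Z)
            (tot q P μ X Y Z) A) := by
        intro μ hμ
        rw [Finset.mem_filter, hnxt] at hμ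
        obtain ⟨h2, b, h3⟩ := hμ
        rw [Finset.mem_union, Finset.mem_filter, Finset.mem_filter]
        cases b
        · exact Or.inr ⟨h2, h3⟩
        · exact Or.inl ⟨h2, h3⟩
      have h2 := (Finset.card_le_card h1).trans (Finset.card_union_le _ _)
      have h3 : (((fib A μ0).filter fun μ => nxt μ A).card : ℝ) ≤
          (((fib A μ0).filter fun μ =>
            (next true).excN c1 q P Λ ω μ (WM n P μ X Y Z) (tot q P μ X Y Z) A).card : ℝ) +
          (((fib A μ0).filter fun μ =>
            (next false).excN c1 q P Λ ω μ (WM n P μ X Y Z) (tot q P μ X Y Z) A).card : ℝ) := by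
        exact_mod_cast h2
      linarith [ih true A μ0, ih false A μ0]
    have h := phase_prob Λ ω ε hε0 X Y Z hanti p hp nxt (2 * ((2 ^ D - 1) * δ)) hb c1 A [] μ0
      List.nodup_nil (fun e' he' => by simp at he') (by simp)
    have h4 : ((fib A μ0).filter fun μ =>
        (PTree.sign p hp next).excN c1 q P Λ ω μ (WM n P μ X Y Z) (tot q P μ X Y Z) A) =
        ((fib A μ0).filter fun μ => phaseP q P Λ ω μ (tot q P μ X Y Z) p
          (pval p (WM n P μ X Y Z)) (nxt μ) c1 A []) := by
      refine Finset.filter_congr fun μ _ => ?_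
      simp only [PTree.excN]
      constructor
      · exact phaseP_mono (fun A hA => (hnxt μ A).2 hA) _ _ _
      · exact phaseP_mono (fun A hA => (hnxt μ A).1 hA) _ _ _
    rw [h4]
    refine h.trans (le_of_eq ?_)
    have hpot : pot ([] : List (Key m)) = 2 := by simp [pot]
    have hsel : sel d ([] : List (Key m)) = 10 ^ d := by simp [sel]
    rw [hpot, hsel, ← hδ, pow_succ]
    ring

open Classical in
theorem excN_card (hP : 0 < P) {d : ℕ} (Λ ω ε : ℝ) (hε0 : 0 ≤ ε) (c1 : ℕ) {B D : ℕ}
    (t : PTree n d B D) (X Y Z : Cfg m q) (hanti : AntiS n d q P m Λ ω ε X Y Z) :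
    ((univ.filter fun μ : Key m → Fin (10 * P) =>
      t.excN c1 q P Λ ω μ (WM n P μ X Y Z) (tot q P μ X Y Z) ∅).card : ℝ) ≤
    (2 ^ D - 1) * (zetd d ^ c1 * 2 + ε * 10 ^ d) * (10 * P) ^ Fintype.card (Key m) := by
  have h := tree_prob Λ ω ε hε0 c1 X Y Z hanti t ∅ (fun _ => ⟨0, by omega⟩)
  have h1 : fib (∅ : Finset (Key m)) (fun _ => (⟨0, by omega⟩ : Fin (10 * P))) = univ := by
    ext μ
    simp [mem_fib]
  have h2 : ((fib (∅ : Finset (Key m)) (fun _ => (⟨0, by omega⟩ : Fin (10 * P)))).card : ℝ) =
      (10 * P) ^ Fintype.card (Key m) := by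
    rw [card_fib, Finset.sdiff_empty, Finset.card_univ]
    push_cast
    rfl
  rw [h2, h1] at h
  exact h

end

end Pool.Agent.Helper21.UV3
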