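import Pool.Agent.Helper21.UV3.Ideal
import Pool.Agent.Helper21.UV3.Prob
import Pool.Agent.Helper21.UV.ReaderCap

/-!
# The capacity of readers with polynomial sign queries
-/

set_option autoImplicit false
set_option linter.unusedSectionVars false

open Finset
open scoped BigOperators

namespace Pool.Agent.Helper21.UV3

open Pool.Agent.Helper22.ETModel Pool.Agent.Helper8.VT Pool.Agent.Helper8.UV
open Pool.Agent.Helper21.UV
open Pool.Agent.Helper8.VS (ind ind_nonneg ind_le_one ind_true ind_false)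

theorem sqrt_cube_le (d : ℕ) (x : ℝ) (hx : 0 ≤ x) :
    √((1 + x) ^ 3) ≤ 9 * 100 ^ d * (lamd d) ^ x := by
  set z : ℝ := (1 / 20) ^ d with hz
  have hz0 : 0 < z := by positivity
  have hz1 : z ≤ 1 := pow_le_one₀ (by norm_num) (by norm_num)
  have hlam : lamd d = 1 + z / 2 := rfl
  have h1 : z / 3 ≤ Real.log (lamd d) := by
    have h := Real.one_sub_inv_le_log_of_pos (x := lamd d) (by rw [hlam]; linarith)
    refine le_trans ?_ h
    rw [hlam]
    have h2 : (1 + z / 2) * (1 + z / 2)⁻¹ = 1 := mul_inv_cancel₀ (by positivity)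
    have h3 : (0 : ℝ) < (1 + z / 2)⁻¹ := by positivity
    nlinarith
  have h2 : Real.exp (x * z / 3) ≤ (lamd d) ^ x := by
    rw [Real.rpow_def_of_pos (by rw [hlam]; linarith)]
    apply Real.exp_le_exp.2
    nlinarith
  have h3 : 1 + x * z / 3 + (x * z / 3) ^ 2 / 2 ≤ Real.exp (x * z / 3) :=
    Real.quadratic_le_exp_of_nonneg (by positivity)
  set a : ℝ := 4 ^ d with ha
  have ha1 : 1 ≤ a := one_le_pow₀ (by norm_num)
  have h4 : √((1 + x) ^ 3) ≤ (1 + x) ^ 2 * (1 / a) / 2 + a * (1 + x) / 2 := by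
    apply Real.sqrt_le_iff.2
    refine ⟨by positivity, ?_⟩
    have hb : a * (1 / a) = 1 := mul_one_div_cancel (by positivity)
    set b := 1 / a with hbdef
    have e : ((1 + x) ^ 2 * b / 2 + a * (1 + x) / 2) ^ 2 =
        ((1 + x) ^ 2 * b / 2 - a * (1 + x) / 2) ^ 2 + (1 + x) ^ 3 * (a * b) := by ring
    rw [e, hb, mul_one]
    linarith [sq_nonneg ((1 + x) ^ 2 * b / 2 - a * (1 + x) / 2)]
  have e1 : (100 : ℝ) ^ d * z = 5 ^ d := by
    rw [hz, ← mul_pow]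
    norm_num
  have e2 : (100 : ℝ) ^ d * z ^ 2 = 1 / a := by
    rw [hz, ha, ← pow_mul, mul_comm d 2, pow_mul, ← mul_pow, ← one_div_pow]
    norm_num
  have e3 : a ≤ 5 ^ d := pow_le_pow_left₀ (by norm_num) (by norm_num) d
  have e4 : a ≤ 100 ^ d := pow_le_pow_left₀ (by norm_num) (by norm_num) d
  have e5 : 1 / a ≤ 1 := by
    rw [div_le_one (by positivity)]
    exact ha1
  have e6 : 0 ≤ 1 / a := by positivity
  have h5 : 9 * (100 : ℝ) ^ d * (1 + x * z / 3 + (x * z / 3) ^ 2 / 2) =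
      9 * 100 ^ d + 3 * x * 5 ^ d + x ^ 2 * (1 / a) / 2 := by
    rw [← e1, ← e2]
    ring
  calc √((1 + x) ^ 3) ≤ (1 + x) ^ 2 * (1 / a) / 2 + a * (1 + x) / 2 := h4
    _ ≤ 9 * 100 ^ d + 3 * x * 5 ^ d + x ^ 2 * (1 / a) / 2 := by nlinarith
    _ = 9 * (100 : ℝ) ^ d * (1 + x * z / 3 + (x * z / 3) ^ 2 / 2) := h5.symm
    _ ≤ 9 * 100 ^ d * (lamd d) ^ x :=
        mul_le_mul_of_nonneg_left (h3.trans h2) (by positivity)

/-- From the exponential moment to the moment of order `3/2`. -/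
theorem moment_bound {M : Type} [Fintype M] [Nonempty M] (lam C : ℝ) (hlam : 1 ≤ lam)
    (hC0 : 0 ≤ C) (hC : ∀ x : ℝ, 0 ≤ x → √((1 + x) ^ 3) ≤ C * lam ^ x) (N0 B : ℕ)
    (hN : 1 ≤ N0) (hB : B ≤ N0)
    (L S : M → ℕ) (hL : ∀ μ, L μ ≤ B + S μ) (mom : M → ℝ)
    (hS : ∀ μ, lam ^ (S μ) ≤ mom μ) (hm : ∑ μ, mom μ ≤ 4 ^ N0 * Fintype.card M) :
    ∑ μ, √((L μ : ℝ) ^ 3) ≤ 4 * C * √((N0 : ℝ) ^ 3) * Fintype.card M := by
  have hN0 : (0 : ℝ) < N0 := by exact_mod_cast hN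
  have hM : (0 : ℝ) < Fintype.card M := by exact_mod_cast Fintype.card_pos
  have hl0 : 0 ≤ lam := by linarith
  set z : M → ℝ := fun μ => lam ^ ((S μ : ℝ) / N0) with hz
  have hz0 : ∀ μ, 0 ≤ z μ := fun μ => Real.rpow_nonneg hl0 _
  have hzN : ∀ μ, z μ ^ N0 = lam ^ (S μ) := by
    intro μ
    rw [hz]
    simp only
    rw [← Real.rpow_natCast, ← Real.rpow_mul hl0, div_mul_cancel₀ _ hN0.ne',
      Real.rpow_natCast]
  have h1 : ∑ μ, z μ ≤ 4 * Fintype.card M := by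
    have h := inner_pow_le (N0 := N0) z hz0
    have h2 : ∑ μ, z μ ^ N0 ≤ 4 ^ N0 * Fintype.card M := by
      refine le_trans (Finset.sum_le_sum fun μ _ => ?_) hm
      rw [hzN]
      exact hS μ
    have h3 : (∑ μ, (Fintype.card M : ℝ)⁻¹ * z μ) ^ N0 ≤ 4 ^ N0 := by
      refine h.trans ?_
      rw [← Finset.mul_sum, inv_mul_le_iff₀ hM]
      linarith
    have h4 := le_of_pow_le_pow_left₀ (by omega) (by norm_num) h3
    rw [← Finset.mul_sum, inv_mul_le_iff₀ hM] at h4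
    linarith
  have h2 : ∀ μ, √((L μ : ℝ) ^ 3) ≤ √((N0 : ℝ) ^ 3) * (C * z μ) := by
    intro μ
    have h3 : (L μ : ℝ) ≤ N0 * (1 + (S μ : ℝ) / N0) := by
      rw [mul_add, mul_one, mul_div_cancel₀ _ hN0.ne']
      have : L μ ≤ N0 + S μ := (hL μ).trans (by omega)
      exact_mod_cast this
    have h4 : √((L μ : ℝ) ^ 3) ≤ √((N0 : ℝ) ^ 3) * √((1 + (S μ : ℝ) / N0) ^ 3) := by
      rw [← Real.sqrt_mul (by positivity), ← mul_pow]
      exact Real.sqrt_le_sqrt (pow_le_pow_left₀ (Nat.cast_nonneg _) h3 3)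
    refine h4.trans (mul_le_mul_of_nonneg_left ?_ (Real.sqrt_nonneg _))
    exact hC _ (by positivity)
  refine (Finset.sum_le_sum fun μ _ => h2 μ).trans ?_
  have h5 : ∑ μ, √((N0 : ℝ) ^ 3) * (C * z μ) = √((N0 : ℝ) ^ 3) * C * ∑ μ, z μ := by
    rw [Finset.mul_sum]
    refine Finset.sum_congr rfl fun μ _ => ?_
    ring
  rw [h5]
  have h6 : 0 ≤ √((N0 : ℝ) ^ 3) * C := by positivity
  nlinarith

section
variable {n m q P : ℕ} [NeZero q]

/-- The capacity of a reader. -/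
theorem reader_cap {d : ℕ} (h9 : 9 * m ≤ n) (hP : 0 < P) (hq : 11 * q ≤ P) {Λ ω ε : ℝ}
    (hΛ : 2 ≤ Λ) (hω : ((Fintype.card (Key m) : ℝ) + 1) ^ d * d * q * Λ ^ (d - 1) / P ≤ ω)
    (hε0 : 0 ≤ ε) (hanti : ∀ X Y Z : Cfg m q, AntiS n d q P m Λ ω ε X Y Z)
    (hval : ∀ (μ : Key m → Fin (10 * P)) (X Y Z : Cfg m q), (mkM n P μ X Y Z).Valid)
    (H : Inst n → ℝ) (B D c1 : ℕ) (hN : 1 ≤ B + D) (hR : IsReader d B D H) :
    ∑ μ : Key m → Fin (10 * P), cap (GM (mkM (m := m) (q := q) n P μ) H) ≤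
      Fintype.card (Key m → Fin (10 * P)) *
        (192 * m * (4 * (9 * 100 ^ d) * √(((B + D : ℕ) : ℝ) ^ 3)) +
        32 * (m : ℝ) ^ 4 * ((2 ^ D - 1) * (zetd d ^ c1 * 2 + ε * 10 ^ d))) := by
  classical
  have hP' : (0 : ℝ) < P := by exact_mod_cast hP
  obtain ⟨tr, htr⟩ := hR
  set t : PTree n d B D := tr (fl n) with ht
  choose T hT using fun μ : Key m → Fin (10 * P) =>
    ideal (q := q) h9 hP hq (one_le_lamd d) hΛ hω c1 μ t
  have hne : Nonempty (Key m → Fin (10 * P)) := ⟨fun _ => ⟨0, by omega⟩⟩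
  have hz := zetd_nonneg d
  set δ : ℝ := (2 ^ D - 1) * (zetd d ^ c1 * 2 + ε * 10 ^ d) with hδ
  have hδ0 : 0 ≤ δ := by
    have : (1 : ℝ) ≤ 2 ^ D := one_le_pow₀ (by norm_num)
    exact mul_nonneg (by linarith) (by positivity)
  have h1 := approx_cap (M := Key m → Fin (10 * P)) (fun μ => GM (mkM (m := m) (q := q) n P μ) H)
    (fun μ X Y Z => (T μ).eval (WM n P μ X Y Z))
    (fun μ X Y Z => t.exc c1 q P Λ ω μ (WM n P μ X Y Z) (tot q P μ X Y Z) ∅)
    (by
      intro μ X Y Z h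
      rw [(hT μ X Y Z).1 h]
      unfold GM
      rw [htr _ (hval μ X Y Z)]
      rfl) δ hδ0
    (by
      intro X Y Z
      have h := excN_card hP Λ ω ε hε0 c1 t X Y Z (hanti X Y Z)
      have h2 : (∑ μ : Key m → Fin (10 * P),
          ind (t.exc c1 q P Λ ω μ (WM n P μ X Y Z) (tot q P μ X Y Z) ∅)) ≤
          ((univ.filter fun μ : Key m → Fin (10 * P) =>
            t.excN c1 q P Λ ω μ (WM n P μ X Y Z) (tot q P μ X Y Z) ∅).card : ℝ) := by
        rw [Finset.card_filter]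
        push_cast
        refine Finset.sum_le_sum fun μ _ => ?_
        by_cases hex : t.exc c1 q P Λ ω μ (WM n P μ X Y Z) (tot q P μ X Y Z) ∅
        · rw [ind_true hex, if_pos (t.excN_of_exc ∅ hex)]
        · rw [ind_false hex]
          split_ifs
          · exact zero_le_one
          · exact le_rfl
      refine h2.trans (h.trans (le_of_eq ?_))
      rw [hδ]
      congr 1
      rw [Fintype.card_fun, Fintype.card_fin]
      push_cast
      ring)
  have h2 : ∑ μ : Key m → Fin (10 * P),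
      cap (fun X Y Z : Cfg m q => (T μ).eval (WM n P μ X Y Z)) ≤
      192 * m * (4 * (9 * 100 ^ d) * √(((B + D : ℕ) : ℝ) ^ 3)) *
        Fintype.card (Key m → Fin (10 * P)) := by
    have h3 : ∀ μ : Key m → Fin (10 * P),
        cap (fun X Y Z : Cfg m q => (T μ).eval (WM n P μ X Y Z)) ≤
        192 * m * bas (fun X Y Z : Cfg m q => √((tlen (T μ) (WM n P μ X Y Z) : ℝ) ^ 3)) := fun μ =>
      tree_cap_len (placeH (fun _ _ => 10 * q) (hM P μ)) (T μ)
    refine (Finset.sum_le_sum fun μ _ => h3 μ).trans ?_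
    rw [← Finset.mul_sum, bas_fsum]
    have h4 : bas (fun X Y Z : Cfg m q => ∑ μ : Key m → Fin (10 * P),
        √((tlen (T μ) (WM n P μ X Y Z) : ℝ) ^ 3)) ≤
        4 * (9 * 100 ^ d) * √(((B + D : ℕ) : ℝ) ^ 3) * Fintype.card (Key m → Fin (10 * P)) := by
      refine (bas_mono _ (fun _ _ _ => 4 * (9 * 100 ^ d) * √(((B + D : ℕ) : ℝ) ^ 3) *
        Fintype.card (Key m → Fin (10 * P))) fun X Y Z => ?_).trans
        (le_of_eq (bas_const _))
      choose S hS1 hS2 using fun μ : Key m → Fin (10 * P) => (hT μ X Y Z).2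
      refine moment_bound (lamd d) (9 * 100 ^ d) (one_le_lamd d) (by positivity)
        (sqrt_cube_le d) (B + D) B hN (by omega) _ S hS1
        (fun μ => t.mom c1 q P Λ (lamd d) μ (WM n P μ X Y Z) (tot q P μ X Y Z) ∅) hS2 ?_
      refine (mom_avg hP Λ c1 X Y Z t).trans ?_
      refine mul_le_mul_of_nonneg_right ?_ (Nat.cast_nonneg _)
      exact pow_le_pow_right₀ (by norm_num) (by omega)
    calc 192 * (m : ℝ) * bas (fun X Y Z : Cfg m q => ∑ μ : Key m → Fin (10 * P),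
        √((tlen (T μ) (WM n P μ X Y Z) : ℝ) ^ 3))
        ≤ 192 * m * (4 * (9 * 100 ^ d) * √(((B + D : ℕ) : ℝ) ^ 3) *
          Fintype.card (Key m → Fin (10 * P))) :=
          mul_le_mul_of_nonneg_left h4 (by positivity)
      _ = _ := by ring
  refine h1.trans ?_
  linarith

end

end Pool.Agent.Helper21.UV3
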