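import Pool.Agent.Helper21.UV3.Mom
import Pool.Agent.Helper21.UV.Ideal2
import Pool.Agent.Helper21.UV.Macro
import Pool.Agent.Helper20.UV3.Mono

/-!
# The ideal probe tree of a reader with polynomial sign queries
-/

set_option autoImplicit false
set_option linter.unusedSectionVars false

open Finset
open scoped BigOperators

namespace Pool.Agent.Helper21.UV3

open Pool.Agent.Helper22.ETModel Pool.Agent.Helper8.VT Pool.Agent.Helper8.UV
open Pool.Agent.Helper21.UV

section
variable {n m q P : ℕ} [NeZero q]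

/-- The known values. -/
def kv (q P : ℕ) (μ : Key m → Fin (10 * P)) (v0 : Key m → ZMod q) (e : Key m) : ℝ :=
  (mac q P μ e : ℝ) + ((v0 e).val : ℝ)

theorem tot_kv {A : Finset (Key m)} (μ : Key m → Fin (10 * P)) (v0 : Key m → ZMod q)
    (X Y Z : Cfg m q) (hA : ∀ e ∈ A, val3 X Y Z e = v0 e) :
    ∀ e ∈ A, tot q P μ X Y Z e = kv q P μ v0 e := by
  intro e he
  unfold tot kv
  rw [hA e he]

/-- The values of the variables with the unread microscopic parts replaced by zero. -/
def iv (q P : ℕ) (μ : Key m → Fin (10 * P)) (A : Finset (Key m)) (v0 : Key m → ZMod q)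
    (e : Key m) : ℝ :=
  (mac q P μ e : ℝ) + (if e ∈ A then ((v0 e).val : ℝ) else 0)

theorem mac_bound (μ : Key m → Fin (10 * P)) (e : Key m) :
    (0 : ℝ) ≤ mac q P μ e ∧ (mac q P μ e : ℝ) ≤ 10 * q + P := by
  have h1 := mac_nonneg (q := q) μ e
  have h2 := mac_le (q := q) μ e
  constructor
  · exact_mod_cast h1
  · exact_mod_cast h2

theorem tot_bound (hq : 11 * q ≤ P) (μ : Key m → Fin (10 * P)) (X Y Z : Cfg m q) (e : Key m) :
    |tot q P μ X Y Z e| ≤ 2 * P := by
  have h1 := mac_bound (q := q) μ e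
  have h2 : ((val3 X Y Z e).val : ℝ) ≤ q := by
    exact_mod_cast (ZMod.val_lt (val3 X Y Z e)).le
  have h3 : (0 : ℝ) ≤ ((val3 X Y Z e).val : ℝ) := Nat.cast_nonneg _
  have h4 : (11 * q : ℝ) ≤ P := by exact_mod_cast hq
  unfold tot
  rw [abs_of_nonneg (by linarith [h1.1])]
  linarith [h1.2]

theorem iv_bound (hq : 11 * q ≤ P) (μ : Key m → Fin (10 * P)) (A : Finset (Key m))
    (v0 : Key m → ZMod q) (e : Key m) : |iv q P μ A v0 e| ≤ 2 * P := by
  have h1 := mac_bound (q := q) μ e
  have h2 : ((v0 e).val : ℝ) ≤ q := by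
    exact_mod_cast (ZMod.val_lt (v0 e)).le
  have h3 : (0 : ℝ) ≤ ((v0 e).val : ℝ) := Nat.cast_nonneg _
  have h4 : (11 * q : ℝ) ≤ P := by exact_mod_cast hq
  have h5 : (0 : ℝ) ≤ q := Nat.cast_nonneg _
  unfold iv
  split_ifs
  · rw [abs_of_nonneg (by linarith [h1.1])]
    linarith [h1.2]
  · rw [abs_of_nonneg (by linarith [h1.1])]
    linarith [h1.2]

theorem tot_iv (μ : Key m → Fin (10 * P)) (A : Finset (Key m)) (v0 : Key m → ZMod q)
    (X Y Z : Cfg m q) (hA : ∀ e ∈ A, val3 X Y Z e = v0 e) (e : Key m) :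
    |tot q P μ X Y Z e - iv q P μ A v0 e| ≤ q := by
  have h2 : ((val3 X Y Z e).val : ℝ) ≤ q := by
    exact_mod_cast (ZMod.val_lt (val3 X Y Z e)).le
  have h3 : (0 : ℝ) ≤ ((val3 X Y Z e).val : ℝ) := Nat.cast_nonneg _
  have h5 : (0 : ℝ) ≤ q := Nat.cast_nonneg _
  unfold tot iv
  by_cases he : e ∈ A
  · rw [if_pos he, hA e he, sub_self, abs_zero]
    exact h5
  · rw [if_neg he, add_zero, add_sub_cancel_left, abs_of_nonneg h3]
    exact h2

/-- The value of the polynomial changes by at most `τ` if the unread microscopic parts change. -/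
def Rob (n : ℕ) {m : ℕ} (q P : ℕ) [NeZero q] (p : MvPolynomial (Fin n × Fin n) ℝ)
    (μ : Key m → Fin (10 * P)) (A : Finset (Key m)) (v0 : Key m → ZMod q) (τ : ℝ) : Prop :=
  ∀ W W' : Key m → ℝ, (∀ e ∈ A, W e = kv q P μ v0 e) → (∀ e ∈ A, W' e = kv q P μ v0 e) →
    (∀ e, |W e| ≤ 2 * P) → (∀ e, |W' e| ≤ 2 * P) → (∀ e, |W e - W' e| ≤ q) →
    |pv m q p W - pv m q p W'| ≤ τ

theorem Rob_insert {p : MvPolynomial (Fin n × Fin n) ℝ} {μ : Key m → Fin (10 * P)}
    {A : Finset (Key m)} {v0 : Key m → ZMod q} {τ : ℝ} (h : Rob n q P p μ A v0 τ) (e : Key m)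
    (he : e ∉ A) (z : ZMod q) :
    Rob n q P p μ (insert e A) (Function.update v0 e z) τ := by
  intro W W' h1 h2 h3 h4 h5
  refine h W W' (fun e' he' => ?_) (fun e' he' => ?_) h3 h4 h5
  · rw [h1 e' (Finset.mem_insert_of_mem he')]
    unfold kv
    rw [Function.update_of_ne (by rintro rfl; exact he he')]
  · rw [h2 e' (Finset.mem_insert_of_mem he')]
    unfold kv
    rw [Function.update_of_ne (by rintro rfl; exact he he')]

/-- The robustness at the choice of a monomial. -/
theorem Rob_top {d : ℕ} (hP : 0 < P) {Λ ω : ℝ} (hΛ : 2 ≤ Λ)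
    (hω : ((Fintype.card (Key m) : ℝ) + 1) ^ d * d * q * Λ ^ (d - 1) / P ≤ ω)
    {p : MvPolynomial (Fin n × Fin n) ℝ} (hp : p.totalDegree ≤ d)
    {μ : Key m → Fin (10 * P)} {A : Finset (Key m)} {v0 : Key m → ZMod q} {s : Key m →₀ ℕ}
    (h : topm Λ P (RR m q A (kv q P μ v0) p) = some s) :
    Rob n q P p μ A v0 (thr ω P (RR m q A (kv q P μ v0) p) s) := by
  intro W W' h1 h2 h3 h4 h5
  obtain ⟨t1, t2, t3⟩ := topm_some h
  have hP' : (0 : ℝ) < P := by exact_mod_cast hP
  rw [← RR_eval h1 p, ← RR_eval h2 p]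
  refine (Pool.Agent.Helper20.UV3.robust d _ (fun u hu => RR_deg A _ p hp u hu) s t1 t2 (P : ℝ) Λ
    (q : ℝ) hP' hΛ t3 W W' h3 h4 h5).trans ?_
  unfold thr
  exact mul_le_mul_of_nonneg_left hω (by positivity)

/-- The statement of the induction. -/
def HasIdeal (n : ℕ) {m q P : ℕ} [NeZero q] (c1 : ℕ) (Λ ω lam : ℝ) (μ : Key m → Fin (10 * P))
    {d B D : ℕ} (t : PTree n d B D) : Prop :=
  ∀ (A : Finset (Key m)) (v0 : Key m → ZMod q), ∃ T : Tree n (B + c1 * D), ∀ X Y Z : Cfg m q,
    (∀ e ∈ A, val3 X Y Z e = v0 e) →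
      (¬ t.exc c1 q P Λ ω μ (WM n P μ X Y Z) (tot q P μ X Y Z) A →
        T.eval (WM n P μ X Y Z) = t.eval (WM n P μ X Y Z)) ∧
      ∃ S : ℕ, tlen T (WM n P μ X Y Z) ≤ B + S ∧
        lam ^ S ≤ t.mom c1 q P Λ lam μ (WM n P μ X Y Z) (tot q P μ X Y Z) A

/-- The reading phase. -/
theorem ideal_phase {d : ℕ} (h9 : 9 * m ≤ n) (hP : 0 < P) (hq : 11 * q ≤ P) {Λ ω lam : ℝ}
    (hlam : 1 ≤ lam) (hΛ : 2 ≤ Λ)
    (hω : ((Fintype.card (Key m) : ℝ) + 1) ^ d * d * q * Λ ^ (d - 1) / P ≤ ω)
    (c1 : ℕ) (μ : Key m → Fin (10 * P)) {B D : ℕ}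
    (p : MvPolynomial (Fin n × Fin n) ℝ) (hp : p.totalDegree ≤ d) (next : Bool → PTree n d B D)
    (ih : ∀ b, HasIdeal (q := q) n c1 Λ ω lam μ (next b)) :
    ∀ (f : ℕ) (A : Finset (Key m)) (l : List (Key m)) (v0 : Key m → ZMod q) (τ : ℝ),
      l.Nodup → (∀ e ∈ l, e ∉ A) → (l ≠ [] → Rob n q P p μ A v0 τ) →
      ∃ T : Tree n (B + c1 * D + f), ∀ X Y Z : Cfg m q,
        (∀ e ∈ A, val3 X Y Z e = v0 e) →
        ((l ≠ [] → (∀ e ∈ l, (μ e : ℕ) < P) → τ < |pval p (WM n P μ X Y Z)|) →
          ¬ phaseP q P Λ ω μ (tot q P μ X Y Z) p (pval p (WM n P μ X Y Z))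
          (fun A' => (next (decide (0 ≤ pval p (WM n P μ X Y Z)))).exc c1 q P Λ ω μ
            (WM n P μ X Y Z) (tot q P μ X Y Z) A') f A l →
        T.eval (WM n P μ X Y Z) =
          (next (decide (0 ≤ pval p (WM n P μ X Y Z)))).eval (WM n P μ X Y Z)) ∧
        ∃ S : ℕ, tlen T (WM n P μ X Y Z) ≤ B + S ∧
          lam ^ S ≤ phaseQ q P Λ lam μ (tot q P μ X Y Z) p
            (fun A' => ∑ b : Bool, (next b).mom c1 q P Λ lam μ (WM n P μ X Y Z)
              (tot q P μ X Y Z) A') f A l := by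
  have hone : ∀ (b : Bool) (w : Wts n) (v : Key m → ℝ) (A : Finset (Key m)),
      (next b).mom c1 q P Λ lam μ w v A ≤ ∑ b : Bool, (next b).mom c1 q P Λ lam μ w v A := by
    intro b w v A
    have h1 := one_le_mom (q := q) (Λ := Λ) hlam c1 μ w v (next true) A
    have h2 := one_le_mom (q := q) (Λ := Λ) hlam c1 μ w v (next false) A
    simp only [Fintype.sum_bool]
    cases b <;> linarith
  have hlam0 : 0 ≤ lam := by linarith
  intro f
  induction f with
  | zero =>
    intro A l v0 τ _ _ _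
    refine ⟨.leaf 0, fun X Y Z _ => ⟨fun _ h => absurd (by unfold phaseP; trivial) h, 0,
      Nat.zero_le _, ?_⟩⟩
    simp [phaseQ]
  | succ f ihf =>
    intro A l v0 τ hnd hdis hrob
    rcases l with _ | ⟨e, l⟩
    · rcases htop : topm Λ P (RR m q A (kv q P μ v0) p) with _ | s
      · obtain ⟨T0, hT0⟩ := ih (decide (0 ≤ pv m q p (iv q P μ A v0))) A v0
        obtain ⟨T, hT⟩ := tree_up_leL (show B + c1 * D ≤ B + c1 * D + (f + 1) by omega) T0
        refine ⟨T, fun X Y Z hA => ?_⟩
        have hRR : RR m q A (tot q P μ X Y Z) p = RR m q A (kv q P μ v0) p :=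
          RR_congr (tot_kv μ v0 X Y Z hA) p
        refine ⟨fun _ hph => ?_, ?_⟩
        · unfold phaseP at hph
          rw [hRR, htop] at hph
          have heq : pval p (WM n P μ X Y Z) = pv m q p (iv q P μ A v0) := by
            rw [pval_WM, ← RR_eval (tot_kv μ v0 X Y Z hA) p,
              ← RR_eval (W := iv q P μ A v0) (v := kv q P μ v0) (A := A)
                (fun e he => by unfold iv kv; rw [if_pos he]) p]
            exact eval_const (topm_none htop) _ _
          simp only [heq] at hph ⊢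
          rw [(hT _).1]
          exact (hT0 X Y Z hA).1 hph
        · obtain ⟨S, hS1, hS2⟩ := (hT0 X Y Z hA).2
          refine ⟨S, by rw [(hT _).2]; exact hS1, hS2.trans ?_⟩
          unfold phaseQ
          rw [hRR, htop]
          exact hone _ _ _ _
      · obtain ⟨t1, t2, t3, t4⟩ := top_list (d := d) hp htop
        have hr := Rob_top hP hΛ hω hp htop
        obtain ⟨T0, hT0⟩ := ihf A s.support.toList v0
          (thr ω P (RR m q A (kv q P μ v0) p) s) t1 t2 (fun _ => hr)
        obtain ⟨T, hT⟩ := tree_up_leL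
          (show B + c1 * D + f ≤ B + c1 * D + (f + 1) by omega) T0
        refine ⟨T, fun X Y Z hA => ?_⟩
        have hRR : RR m q A (tot q P μ X Y Z) p = RR m q A (kv q P μ v0) p :=
          RR_congr (tot_kv μ v0 X Y Z hA) p
        refine ⟨fun _ hph => ?_, ?_⟩
        · unfold phaseP at hph
          rw [hRR, htop] at hph
          simp only [not_or] at hph
          obtain ⟨hb, hph⟩ := hph
          rw [(hT _).1]
          refine (hT0 X Y Z hA).1 (fun _ hall => ?_) hph
          by_contra hcon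
          push Not at hcon
          exact hb ⟨fun e he => hall e (by simpa using he), hcon⟩
        · obtain ⟨S, hS1, hS2⟩ := (hT0 X Y Z hA).2
          refine ⟨S, by rw [(hT _).2]; exact hS1, hS2.trans ?_⟩
          conv_rhs => unfold phaseQ
          rw [hRR, htop]
    · have he1 : e ∉ A := hdis e (List.mem_cons_self ..)
      have hnd' : l.Nodup := (List.nodup_cons.1 hnd).2
      have hel : e ∉ l := (List.nodup_cons.1 hnd).1
      have hdis' : ∀ e' ∈ l, e' ∉ insert e A := by
        intro e' he' h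
        rcases Finset.mem_insert.1 h with h | h
        · rw [h] at he'; exact hel he'
        · exact hdis e' (List.mem_cons_of_mem _ he') h
      have hr := hrob (by simp)
      by_cases hbig : (μ e : ℕ) < P
      · by_cases hl : l = []
        · choose T' hT' using fun z : ZMod q => ih
            (decide (0 ≤ pv m q p (iv q P μ (insert e A) (Function.update v0 e z))))
            (insert e A) (Function.update v0 e z)
          obtain ⟨T0, hT0⟩ := tree_readL h9 μ e T'
          obtain ⟨T, hT⟩ := tree_up_leL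
            (show B + c1 * D + 1 ≤ B + c1 * D + (f + 1) by omega) T0
          refine ⟨T, fun X Y Z hA => ?_⟩
          have hA' := known_insert A v0 X Y Z hA e
          refine ⟨fun hτ hph => ?_, ?_⟩
          · unfold phaseP at hph
            rw [if_pos hbig, if_pos hl] at hph
            have hL : τ < |pval p (WM n P μ X Y Z)| := hτ (by simp) (by
              intro e' he'
              rw [hl, List.mem_singleton] at he'
              rw [he']; exact hbig)
            have hd := Rob_insert hr e he1 (val3 X Y Z e) (tot q P μ X Y Z)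
              (iv q P μ (insert e A) (Function.update v0 e (val3 X Y Z e)))
              (tot_kv μ _ X Y Z hA')
              (fun e' he' => by unfold iv kv; rw [if_pos he'])
              (tot_bound hq μ X Y Z) (iv_bound hq μ _ _) (tot_iv μ _ _ X Y Z hA')
            rw [← pval_WM] at hd
            have hb : decide (0 ≤ pv m q p (iv q P μ (insert e A)
                (Function.update v0 e (val3 X Y Z e)))) =
                decide (0 ≤ pval p (WM n P μ X Y Z)) := by
              apply decide_eq_decide.2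
              rw [abs_le] at hd
              have hτ0 : 0 ≤ τ := le_trans (abs_nonneg _) (by
                rw [← abs_le] at hd; exact hd)
              rcases lt_abs.1 hL with h | h
              · constructor <;> intro _ <;> linarith [hd.1, hd.2]
              · constructor <;> intro h' <;> exfalso <;> linarith [hd.1, hd.2]
            rw [(hT _).1, (hT0 X Y Z).1]
            have := (hT' (val3 X Y Z e) X Y Z hA').1
            rw [hb] at this
            exact this hph
          · obtain ⟨S, hS1, hS2⟩ := (hT' (val3 X Y Z e) X Y Z hA').2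
            refine ⟨S + 1, by rw [(hT _).2, (hT0 X Y Z).2]; omega, ?_⟩
            unfold phaseQ
            rw [if_pos hbig, if_pos hl, pow_succ, mul_comm]
            exact mul_le_mul_of_nonneg_left (hS2.trans (hone _ _ _ _)) hlam0
        · choose T' hT' using fun z : ZMod q => ihf (insert e A) l (Function.update v0 e z) τ
            hnd' hdis' (fun _ => Rob_insert hr e he1 z)
          obtain ⟨T, hT⟩ := tree_readL h9 μ e T'
          refine ⟨T, fun X Y Z hA => ?_⟩
          have hA' := known_insert A v0 X Y Z hA e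
          refine ⟨fun hτ hph => ?_, ?_⟩
          · unfold phaseP at hph
            rw [if_pos hbig, if_neg hl] at hph
            rw [(hT X Y Z).1]
            refine (hT' (val3 X Y Z e) X Y Z hA').1 (fun _ hall => ?_) hph
            refine hτ (by simp) (fun e' he' => ?_)
            rcases List.mem_cons.1 he' with h | h
            · rw [h]; exact hbig
            · exact hall e' h
          · obtain ⟨S, hS1, hS2⟩ := (hT' (val3 X Y Z e) X Y Z hA').2
            refine ⟨S + 1, by rw [(hT X Y Z).2]; omega, ?_⟩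
            unfold phaseQ
            rw [if_pos hbig, if_neg hl, pow_succ, mul_comm]
            exact mul_le_mul_of_nonneg_left hS2 hlam0
      · choose T' hT' using fun z : ZMod q => ihf (insert e A) [] (Function.update v0 e z) 0
          List.nodup_nil (fun e' he' => by simp at he') (fun h => absurd rfl h)
        obtain ⟨T, hT⟩ := tree_readL h9 μ e T'
        refine ⟨T, fun X Y Z hA => ?_⟩
        have hA' := known_insert A v0 X Y Z hA e
        refine ⟨fun hτ hph => ?_, ?_⟩
        · unfold phaseP at hph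
          rw [if_neg hbig] at hph
          rw [(hT X Y Z).1]
          exact (hT' (val3 X Y Z e) X Y Z hA').1 (fun h => absurd rfl h) hph
        · obtain ⟨S, hS1, hS2⟩ := (hT' (val3 X Y Z e) X Y Z hA').2
          refine ⟨S + 1, by rw [(hT X Y Z).2]; omega, ?_⟩
          unfold phaseQ
          rw [if_neg hbig, pow_succ, mul_comm]
          exact mul_le_mul_of_nonneg_left hS2 hlam0

theorem hasIdeal {d : ℕ} (h9 : 9 * m ≤ n) (hP : 0 < P) (hq : 11 * q ≤ P) {Λ ω lam : ℝ}
    (hlam : 1 ≤ lam) (hΛ : 2 ≤ Λ)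
    (hω : ((Fintype.card (Key m) : ℝ) + 1) ^ d * d * q * Λ ^ (d - 1) / P ≤ ω)
    (c1 : ℕ) (μ : Key m → Fin (10 * P)) {B D : ℕ} (t : PTree n d B D) :
    HasIdeal (q := q) n c1 Λ ω lam μ t := by
  induction t with
  | leaf v =>
    intro A v0
    exact ⟨.leaf v, fun X Y Z _ => ⟨fun _ => rfl, 0, Nat.zero_le _, by simp [PTree.mom]⟩⟩
  | @probe B D i j next ih =>
    intro A v0
    have hd : B + 1 + c1 * D = B + c1 * D + 1 := by omega
    rw [hd]
    rcases hc : key m i j with _ | ⟨e, c⟩
    · obtain ⟨T0, hT0⟩ := ih (10 * q) A v0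
      obtain ⟨T, hT⟩ := tree_upL T0
      refine ⟨T, fun X Y Z hA => ?_⟩
      have hw := WM_none μ X Y Z i j hc
      refine ⟨fun hex => ?_, ?_⟩
      · rw [(hT _).1]
        simp only [PTree.exc, PTree.eval, addKey, hc, hw] at hex ⊢
        exact (hT0 X Y Z hA).1 hex
      · obtain ⟨S, hS1, hS2⟩ := (hT0 X Y Z hA).2
        refine ⟨S, by rw [(hT _).2]; omega, ?_⟩
        simp only [PTree.mom, addKey, hc, hw]
        exact hS2
    · choose T' hT' using fun z : ℤ => ih z (insert e A)
        (Function.update v0 e ((z + cpy m q i j - mac q P μ e : ℤ) : ZMod q))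
      refine ⟨.node i j T', fun X Y Z hA => ?_⟩
      have hkn : ∀ e' ∈ insert e A, val3 X Y Z e' = Function.update v0 e
          ((WM n P μ X Y Z i j + cpy m q i j - mac q P μ e : ℤ) : ZMod q) e' := by
        rw [recover μ X Y Z i j e c hc]
        exact known_insert A v0 X Y Z hA e
      have h := hT' (WM n P μ X Y Z i j) X Y Z hkn
      refine ⟨fun hex => ?_, ?_⟩
      · simp only [PTree.exc, PTree.eval, Tree.eval, addKey, hc] at hex ⊢
        exact h.1 hex
      · obtain ⟨S, hS1, hS2⟩ := h.2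
        refine ⟨S, by simp only [tlen]; omega, ?_⟩
        simp only [PTree.mom, addKey, hc]
        exact hS2
  | @sign B D p hp next ih =>
    intro A v0
    have hd : B + c1 * (D + 1) = B + c1 * D + c1 := by ring
    rw [hd]
    obtain ⟨T, hT⟩ := ideal_phase h9 hP hq hlam hΛ hω c1 μ p hp next ih c1 A [] v0 0
      List.nodup_nil (fun e' he' => by simp at he') (fun h => absurd rfl h)
    exact ⟨T, fun X Y Z hA => ⟨fun hex => (hT X Y Z hA).1 (fun h => absurd rfl h) hex,
      (hT X Y Z hA).2⟩⟩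

/-- The ideal probe tree. -/
theorem ideal {d : ℕ} (h9 : 9 * m ≤ n) (hP : 0 < P) (hq : 11 * q ≤ P) {Λ ω lam : ℝ}
    (hlam : 1 ≤ lam) (hΛ : 2 ≤ Λ)
    (hω : ((Fintype.card (Key m) : ℝ) + 1) ^ d * d * q * Λ ^ (d - 1) / P ≤ ω)
    (c1 : ℕ) (μ : Key m → Fin (10 * P)) {B D : ℕ} (t : PTree n d B D) :
    ∃ T : Tree n (B + c1 * D), ∀ X Y Z : Cfg m q,
      (¬ t.exc c1 q P Λ ω μ (WM n P μ X Y Z) (tot q P μ X Y Z) ∅ →
        T.eval (WM n P μ X Y Z) = t.eval (WM n P μ X Y Z)) ∧
      ∃ S : ℕ, tlen T (WM n P μ X Y Z) ≤ B + S ∧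
        lam ^ S ≤ t.mom c1 q P Λ lam μ (WM n P μ X Y Z) (tot q P μ X Y Z) ∅ := by
  obtain ⟨T, hT⟩ := hasIdeal (q := q) h9 hP hq hlam hΛ hω c1 μ t ∅ (fun _ => 0)
  exact ⟨T, fun X Y Z => hT X Y Z (fun e he => absurd he (Finset.notMem_empty e))⟩

end

end Pool.Agent.Helper21.UV3
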