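import Pool.Agent.Helper21.UV3.Phase
import Pool.Agent.Helper21.UV.Mom

/-!
# An exponential moment of the length of the reading phases
-/

set_option autoImplicit false
set_option linter.unusedSectionVars false

open Finset
open scoped BigOperators

namespace Pool.Agent.Helper21.UV3

open Pool.Agent.Helper22.ETModel Pool.Agent.Helper8.VT Pool.Agent.Helper8.UV
open Pool.Agent.Helper21.UV

section
variable {n m q P : ℕ}

/-- The potential. -/
noncomputable def pot (l : List (Key m)) : ℝ := if l = [] then 2 else 2 - (1 / 20) ^ l.length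

/-- The base of the exponential moment. -/
noncomputable def lamd (d : ℕ) : ℝ := 1 + (1 / 20) ^ d / 2

theorem one_le_lamd (d : ℕ) : 1 ≤ lamd d := by
  unfold lamd
  have : (0 : ℝ) ≤ (1 / 20) ^ d / 2 := by positivity
  linarith

theorem lamd_step (d j : ℕ) (hj : j + 1 ≤ d) :
    lamd d * (20 - (1 / 20) ^ j) ≤ 10 * (2 - (1 / 20) ^ (j + 1)) := by
  unfold lamd
  have h1 : (1 / 20 : ℝ) ^ d ≤ (1 / 20) ^ (j + 1) :=
    pow_le_pow_of_le_one (by norm_num) (by norm_num) hj
  have h2 : (0 : ℝ) < (1 / 20) ^ d := by positivity
  rw [pow_succ] at h1 ⊢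
  have h4 : (0 : ℝ) < (1 / 20) ^ j := by positivity
  nlinarith [mul_pos h2 h4]

theorem pot_le (l : List (Key m)) : pot l ≤ 2 := by
  unfold pot
  split_ifs
  · exact le_rfl
  · have : (0 : ℝ) ≤ (1 / 20) ^ l.length := by positivity
    linarith

theorem one_le_pot (l : List (Key m)) : 1 ≤ pot l := by
  unfold pot
  split_ifs
  · norm_num
  · have : (1 / 20 : ℝ) ^ l.length ≤ 1 := pow_le_one₀ (by norm_num) (by norm_num)
    linarith

theorem pot_cons (e : Key m) (l : List (Key m)) : pot (e :: l) = 2 - (1 / 20) ^ (l.length + 1) := by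
  unfold pot
  rw [if_neg (by simp)]
  rfl

theorem support_card_le (s : Key m →₀ ℕ) : s.support.card ≤ s.degree := by
  rw [Finsupp.degree_apply, Finset.card_eq_sum_ones]
  refine Finset.sum_le_sum fun e he => ?_
  have := Finsupp.mem_support_iff.1 he
  omega

variable [NeZero q]

theorem tot_fib {A : Finset (Key m)} {μ0 μ : Key m → Fin (10 * P)} (hμ : μ ∈ fib A μ0)
    (X Y Z : Cfg m q) : ∀ e ∈ A, tot q P μ X Y Z e = tot q P μ0 X Y Z e := by
  intro e he
  unfold tot mac
  rw [mem_fib.1 hμ e he]

/-- The variables of the chosen monomial. -/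
theorem top_list {d : ℕ} {Λ : ℝ} {A : Finset (Key m)} {v : Key m → ℝ}
    {p : MvPolynomial (Fin n × Fin n) ℝ} (hp : p.totalDegree ≤ d) {s : Key m →₀ ℕ}
    (h : topm Λ P (RR m q A v p) = some s) :
    s.support.toList.Nodup ∧ (∀ e ∈ s.support.toList, e ∉ A) ∧ s.support.toList.length ≤ d ∧
      s.support.toList ≠ [] := by
  obtain ⟨h1, h2, _⟩ := topm_some h
  refine ⟨Finset.nodup_toList _, ?_, ?_, ?_⟩
  · intro e he hA
    rw [Finset.mem_toList, Finsupp.mem_support_iff] at he
    exact he (RR_vars A v p s h1 e hA)
  · rw [Finset.length_toList]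
    exact (support_card_le s).trans (RR_deg A v p hp s h1)
  · intro h0
    rw [Finset.toList_eq_nil, Finsupp.support_eq_empty] at h0
    exact h2 h0

theorem phase_mom {d : ℕ} (Λ : ℝ) (p : MvPolynomial (Fin n × Fin n) ℝ) (hp : p.totalDegree ≤ d)
    (X Y Z : Cfg m q) (nxt : (Key m → Fin (10 * P)) → Finset (Key m) → ℝ) (b : ℝ)
    (hb1 : 1 ≤ b) (hb : ∀ (A : Finset (Key m)) (μ0 : Key m → Fin (10 * P)),
      ∑ μ ∈ fib A μ0, nxt μ A ≤ b * (fib A μ0).card) :
    ∀ (f : ℕ) (A : Finset (Key m)) (l : List (Key m)) (μ0 : Key m → Fin (10 * P)),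
      l.Nodup → (∀ e ∈ l, e ∉ A) → l.length ≤ d →
      ∑ μ ∈ fib A μ0, phaseQ q P Λ (lamd d) μ (tot q P μ X Y Z) p (nxt μ) f A l ≤
        pot l * b * (fib A μ0).card := by
  intro f
  induction f with
  | zero =>
    intro A l μ0 _ _ _
    simp only [phaseQ, Finset.sum_const, nsmul_eq_mul, mul_one]
    have h0 : (0 : ℝ) ≤ (fib A μ0).card := Nat.cast_nonneg _
    have h1 := one_le_pot l
    have : (1 : ℝ) ≤ pot l * b := one_le_mul_of_one_le_of_one_le h1 hb1
    nlinarith
  | succ f ih =>
    intro A l μ0 hnd hA hlen
    have h0 : (0 : ℝ) ≤ (fib A μ0).card := Nat.cast_nonneg _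
    rcases l with _ | ⟨e, l⟩
    · have hpot : pot ([] : List (Key m)) = 2 := by simp [pot]
      rcases htop : topm Λ P (RR m q A (tot q P μ0 X Y Z) p) with _ | s
      · have h1 : ∀ μ ∈ fib A μ0, phaseQ q P Λ (lamd d) μ (tot q P μ X Y Z) p (nxt μ) (f + 1) A []
            = nxt μ A := by
          intro μ hμ
          unfold phaseQ
          rw [RR_congr (tot_fib hμ X Y Z) p, htop]
        rw [Finset.sum_congr rfl h1, hpot]
        refine (hb A μ0).trans ?_
        nlinarith
      · obtain ⟨t1, t2, t3, t4⟩ := top_list hp htop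
        have h1 : ∀ μ ∈ fib A μ0, phaseQ q P Λ (lamd d) μ (tot q P μ X Y Z) p (nxt μ) (f + 1) A []
            = phaseQ q P Λ (lamd d) μ (tot q P μ X Y Z) p (nxt μ) f A s.support.toList := by
          intro μ hμ
          conv_lhs => unfold phaseQ
          rw [RR_congr (tot_fib hμ X Y Z) p, htop]
        rw [Finset.sum_congr rfl h1, hpot]
        refine (ih A s.support.toList μ0 t1 t2 t3).trans ?_
        have := pot_le s.support.toList
        have hb0 : 0 ≤ b * (fib A μ0).card := by positivity
        nlinarith
    · have he1 : e ∉ A := hA e (List.mem_cons_self ..)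
      have hnd' : l.Nodup := (List.nodup_cons.1 hnd).2
      have hel : e ∉ l := (List.nodup_cons.1 hnd).1
      have hA' : ∀ e' ∈ l, e' ∉ insert e A := by
        intro e' he' h
        rcases Finset.mem_insert.1 h with h | h
        · rw [h] at he'; exact hel he'
        · exact hA e' (List.mem_cons_of_mem _ he') h
      have hlen' : l.length + 1 ≤ d := by simpa using hlen
      set N' : ℝ := ((fib (insert e A) μ0).card : ℝ) with hN'
      have hcard : ∀ x, ((fib (insert e A) (Function.update μ0 e x)).card : ℝ) = N' := by
        intro x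
        rw [hN', card_fib, card_fib]
      have hN : (10 * P : ℝ) * N' = (fib A μ0).card := by
        have := card_fib_insert he1 μ0 μ0
        rw [hN']
        exact_mod_cast this
      have hN0 : 0 ≤ N' := Nat.cast_nonneg _
      have hlam := one_le_lamd d
      rw [fib_sum he1, ← Finset.sum_filter_add_sum_filter_not univ
        (fun x : Fin (10 * P) => (x : ℕ) < P)]
      have hbig : ∀ x ∈ univ.filter (fun x : Fin (10 * P) => (x : ℕ) < P),
          ∑ μ ∈ fib (insert e A) (Function.update μ0 e x),
            phaseQ q P Λ (lamd d) μ (tot q P μ X Y Z) p (nxt μ) (f + 1) A (e :: l) ≤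
            lamd d * ((2 - (1 / 20) ^ l.length) * b * N') := by
        intro x hx
        rw [Finset.mem_filter] at hx
        have h1 : ∀ μ ∈ fib (insert e A) (Function.update μ0 e x),
            phaseQ q P Λ (lamd d) μ (tot q P μ X Y Z) p (nxt μ) (f + 1) A (e :: l) =
            lamd d * (if l = [] then nxt μ (insert e A) else
              phaseQ q P Λ (lamd d) μ (tot q P μ X Y Z) p (nxt μ) f (insert e A) l) := by
          intro μ hμ
          have h4 : μ e = x := by
            have := mem_fib.1 hμ e (Finset.mem_insert_self _ _)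
            rwa [Function.update_self] at this
          conv_lhs => unfold phaseQ
          rw [if_pos (by rw [h4]; exact hx.2)]
        rw [Finset.sum_congr rfl h1, ← Finset.mul_sum]
        refine mul_le_mul_of_nonneg_left ?_ (by linarith)
        by_cases hl : l = []
        · simp only [if_pos hl]
          have := hb (insert e A) (Function.update μ0 e x)
          rw [hcard] at this
          rw [hl]
          refine this.trans (le_of_eq ?_)
          norm_num
        · simp only [if_neg hl]
          have := ih (insert e A) l (Function.update μ0 e x) hnd' hA' (by omega)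
          rw [hcard] at this
          unfold pot at this
          rwa [if_neg hl] at this
      have hsmall : ∀ x ∈ univ.filter (fun x : Fin (10 * P) => ¬ (x : ℕ) < P),
          ∑ μ ∈ fib (insert e A) (Function.update μ0 e x),
            phaseQ q P Λ (lamd d) μ (tot q P μ X Y Z) p (nxt μ) (f + 1) A (e :: l) ≤
            lamd d * (2 * b * N') := by
        intro x hx
        rw [Finset.mem_filter] at hx
        have h1 : ∀ μ ∈ fib (insert e A) (Function.update μ0 e x),
            phaseQ q P Λ (lamd d) μ (tot q P μ X Y Z) p (nxt μ) (f + 1) A (e :: l) =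
            lamd d * phaseQ q P Λ (lamd d) μ (tot q P μ X Y Z) p (nxt μ) f (insert e A) [] := by
          intro μ hμ
          have h4 : μ e = x := by
            have := mem_fib.1 hμ e (Finset.mem_insert_self _ _)
            rwa [Function.update_self] at this
          conv_lhs => unfold phaseQ
          rw [if_neg (by rw [h4]; exact hx.2)]
        rw [Finset.sum_congr rfl h1, ← Finset.mul_sum]
        refine mul_le_mul_of_nonneg_left ?_ (by linarith)
        have := ih (insert e A) [] (Function.update μ0 e x) List.nodup_nil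
          (fun e' he' => by simp at he') (by simp)
        rw [hcard] at this
        have hpot : pot ([] : List (Key m)) = 2 := by simp [pot]
        rwa [hpot] at this
      have s1 := Finset.sum_le_sum hbig
      have s2 := Finset.sum_le_sum hsmall
      rw [Finset.sum_const, card_small, nsmul_eq_mul] at s1
      rw [Finset.sum_const, card_large, nsmul_eq_mul] at s2
      push_cast at s2
      refine (add_le_add s1 s2).trans ?_
      rw [← hN, pot_cons]
      have hstep := lamd_step d l.length hlen'
      have hbN : 0 ≤ b * P * N' := by positivity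
      calc (P : ℝ) * (lamd d * ((2 - (1 / 20) ^ l.length) * b * N')) +
            9 * P * (lamd d * (2 * b * N'))
          = (lamd d * (20 - (1 / 20) ^ l.length)) * (b * P * N') := by ring
        _ ≤ (10 * (2 - (1 / 20) ^ (l.length + 1))) * (b * P * N') :=
            mul_le_mul_of_nonneg_right hstep hbN
        _ = _ := by ring

theorem tree_mom {d : ℕ} (Λ : ℝ) (c1 : ℕ) (X Y Z : Cfg m q) {B D : ℕ} (t : PTree n d B D) :
    ∀ (A : Finset (Key m)) (μ0 : Key m → Fin (10 * P)),
      ∑ μ ∈ fib A μ0, t.mom c1 q P Λ (lamd d) μ (WM n P μ X Y Z) (tot q P μ X Y Z) A ≤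
        4 ^ D * (fib A μ0).card := by
  induction t with
  | @leaf B D v =>
    intro A μ0
    simp only [PTree.mom, Finset.sum_const, nsmul_eq_mul, mul_one]
    have h0 : (0 : ℝ) ≤ (fib A μ0).card := Nat.cast_nonneg _
    have h1 : (1 : ℝ) ≤ 4 ^ D := one_le_pow₀ (by norm_num)
    nlinarith
  | @probe B D i j next ih =>
    intro A μ0
    rcases hc : key m i j with _ | ⟨e, c⟩
    · have h : ∀ μ ∈ fib A μ0, (PTree.probe i j next).mom c1 q P Λ (lamd d) μ (WM n P μ X Y Z)
          (tot q P μ X Y Z) A = (next (10 * q)).mom c1 q P Λ (lamd d) μ (WM n P μ X Y Z)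
          (tot q P μ X Y Z) A := by
        intro μ _
        simp only [PTree.mom, addKey, hc, WM_none μ X Y Z i j hc]
      rw [Finset.sum_congr rfl h]
      exact ih _ A μ0
    · by_cases he : e ∈ A
      · have h : ∀ μ ∈ fib A μ0, (PTree.probe i j next).mom c1 q P Λ (lamd d) μ (WM n P μ X Y Z)
            (tot q P μ X Y Z) A =
            (next (mac q P μ0 e + (val3 X Y Z e).val - cpy m q i j)).mom c1 q P Λ (lamd d) μ
                (WM n P μ X Y Z) (tot q P μ X Y Z) A := by
          intro μ hμ
          simp only [PTree.mom, addKey, hc, Finset.insert_eq_of_mem he,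
            WM_const he X Y Z i j c hc hμ]
        rw [Finset.sum_congr rfl h]
        exact ih _ A μ0
      · rw [fib_sum he]
        have h1 : ∀ x ∈ (univ : Finset (Fin (10 * P))),
            ∑ μ ∈ fib (insert e A) (Function.update μ0 e x),
              (PTree.probe i j next).mom c1 q P Λ (lamd d) μ (WM n P μ X Y Z)
                (tot q P μ X Y Z) A ≤
            4 ^ D * (fib (insert e A) μ0).card := by
          intro x _
          have h : ∀ μ ∈ fib (insert e A) (Function.update μ0 e x),
              (PTree.probe i j next).mom c1 q P Λ (lamd d) μ (WM n P μ X Y Z)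
                (tot q P μ X Y Z) A =
                (next (mac q P (Function.update μ0 e x) e + (val3 X Y Z e).val -
                  cpy m q i j)).mom c1 q P Λ (lamd d) μ (WM n P μ X Y Z)
                  (tot q P μ X Y Z) (insert e A) := by
            intro μ hμ
            simp only [PTree.mom, addKey, hc,
              WM_const (Finset.mem_insert_self e A) X Y Z i j c hc hμ]
          rw [Finset.sum_congr rfl h]
          have h2 := ih (mac q P (Function.update μ0 e x) e + (val3 X Y Z e).val -
            cpy m q i j) (insert e A) (Function.update μ0 e x)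
          have h3 : (fib (insert e A) (Function.update μ0 e x)).card =
              (fib (insert e A) μ0).card := by rw [card_fib, card_fib]
          rwa [h3] at h2
        refine (Finset.sum_le_sum h1).trans (le_of_eq ?_)
        rw [Finset.sum_const, Finset.card_univ, Fintype.card_fin, nsmul_eq_mul]
        have := card_fib_insert he μ0 μ0
        have h4 : ((10 * P : ℕ) : ℝ) * ((fib (insert e A) μ0).card : ℝ) = (fib A μ0).card := by
          exact_mod_cast this
        rw [← h4]
        ring
  | @sign B D p hp next ih =>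
    intro A μ0
    have h := phase_mom (P := P) Λ p hp X Y Z
      (fun μ A' => ∑ b : Bool, (next b).mom c1 q P Λ (lamd d) μ (WM n P μ X Y Z)
        (tot q P μ X Y Z) A') (2 * 4 ^ D)
      (by
        have h1 : (1 : ℝ) ≤ 4 ^ D := one_le_pow₀ (by norm_num)
        linarith)
      (by
        intro A μ0
        simp only [Fintype.sum_bool, Finset.sum_add_distrib]
        linarith [ih true A μ0, ih false A μ0]) c1 A [] μ0 List.nodup_nil
        (fun e' he' => by simp at he') (by simp)
    refine h.trans (le_of_eq ?_)
    have hpot : pot ([] : List (Key m)) = 2 := by simp [pot]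
    rw [hpot]
    ring

/-- The average of the moment. -/
theorem mom_avg (hP : 0 < P) {d : ℕ} (Λ : ℝ) (c1 : ℕ) (X Y Z : Cfg m q) {B D : ℕ}
    (t : PTree n d B D) :
    ∑ μ : Key m → Fin (10 * P), t.mom c1 q P Λ (lamd d) μ (WM n P μ X Y Z)
      (tot q P μ X Y Z) ∅ ≤ 4 ^ D * Fintype.card (Key m → Fin (10 * P)) := by
  have h := tree_mom (P := P) Λ c1 X Y Z t ∅ (fun _ => ⟨0, by omega⟩)
  have h1 : fib (∅ : Finset (Key m)) (fun _ => (⟨0, by omega⟩ : Fin (10 * P))) = univ := by
    ext μ
    simp [mem_fib]
  rw [h1, Finset.card_univ] at h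
  exact h

end

end Pool.Agent.Helper21.UV3
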