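import Pool.Agent.Helper21.UV3.Prob

/-!
# The choice of the parameters
-/

set_option autoImplicit false
set_option linter.unusedSectionVars false

open Finset
open scoped BigOperators

namespace Pool.Agent.Helper21.UV3

open Pool.Agent.Helper22.ETModel Pool.Agent.Helper8.VT Pool.Agent.Helper8.UV
open Pool.Agent.Helper21.UV

/-- The factor by which a window is smaller than the range of the macroscopic parts. -/
def Rz (n s : ℕ) : ℕ := n ^ 4 * 2 ^ (s * (Nat.log 2 n + 1))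

theorem card_key_le (n : ℕ) (hn : 2048 ≤ n) : 14 * (Fintype.card (Key (n / 9)) + 1) ≤ n ^ 2 := by
  have h0 : Fintype.card (Key (n / 9)) = 3 * ((n / 9) * (n / 9)) := by
    simp [Key]
  rw [h0]
  have h3 : 9 * (n / 9) ≤ n := Nat.mul_div_le n 9
  have h5 := Nat.mul_le_mul h3 h3
  have h6 : 9 * (n / 9) * (9 * (n / 9)) = 81 * ((n / 9) * (n / 9)) := by ring
  rw [h6] at h5
  have h7 : 2048 * 2048 ≤ n * n := Nat.mul_le_mul hn hn
  rw [pow_two]
  omega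

theorem num_main (n d s : ℕ) (hn : 2048 ≤ n) (hd : 1 ≤ d) (hs : (s + 6) * d ^ 2 ≤ 270) :
    2 * d * 8 ^ (d - 1) * n ^ 3 *
      (14 * (Fintype.card (Key (n / 9)) + 1) * Rz n s) ^ (d * d) ≤ n ^ 299 := by
  have h1 := card_key_le n hn
  have h2 : 2 ^ (Nat.log 2 n + 1) ≤ 2 * n := by
    rw [pow_succ, Nat.mul_comm]
    exact Nat.mul_le_mul_left 2 (Nat.pow_log_le_self 2 (by omega))
  have h3 : Rz n s ≤ n ^ 4 * (2 ^ s * n ^ s) := by
    unfold Rz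
    refine Nat.mul_le_mul_left _ ?_
    rw [Nat.mul_comm s, pow_mul, ← mul_pow]
    exact Nat.pow_le_pow_left h2 s
  have h4 : 14 * (Fintype.card (Key (n / 9)) + 1) * Rz n s ≤ 2 ^ s * n ^ (s + 6) := by
    calc 14 * (Fintype.card (Key (n / 9)) + 1) * Rz n s ≤ n ^ 2 * (n ^ 4 * (2 ^ s * n ^ s)) :=
          Nat.mul_le_mul h1 h3
      _ = 2 ^ s * n ^ (s + 6) := by
          rw [pow_add]
          ring
  have h5 : (14 * (Fintype.card (Key (n / 9)) + 1) * Rz n s) ^ (d * d) ≤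
      2 ^ (s * (d * d)) * n ^ ((s + 6) * (d * d)) := by
    refine (Nat.pow_le_pow_left h4 (d * d)).trans (le_of_eq ?_)
    rw [mul_pow, ← pow_mul, ← pow_mul]
  have hdd : (s + 6) * (d * d) ≤ 270 := by rw [← pow_two]; exact hs
  have h6 : 2 * d * 8 ^ (d - 1) ≤ 2 ^ (6 * (d * d)) := by
    have e1 : d ≤ 2 ^ d := Nat.lt_two_pow_self.le
    have e2 : (8 : ℕ) ^ (d - 1) = 2 ^ (3 * (d - 1)) := by
      rw [pow_mul]
      norm_num
    calc 2 * d * 8 ^ (d - 1) ≤ 2 * 2 ^ d * 2 ^ (3 * (d - 1)) := by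
          rw [e2]
          exact Nat.mul_le_mul_right _ (Nat.mul_le_mul_left 2 e1)
      _ = 2 ^ (1 + d + 3 * (d - 1)) := by
          rw [pow_add, pow_add, pow_one]
      _ ≤ 2 ^ (6 * (d * d)) := by
          refine Nat.pow_le_pow_right (by norm_num) ?_
          have : d ≤ d * d := Nat.le_mul_of_pos_left d hd
          omega
  have h7 : 2 * d * 8 ^ (d - 1) * 2 ^ (s * (d * d)) ≤ n ^ 25 := by
    calc 2 * d * 8 ^ (d - 1) * 2 ^ (s * (d * d)) ≤ 2 ^ (6 * (d * d)) * 2 ^ (s * (d * d)) :=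
          Nat.mul_le_mul_right _ h6
      _ = 2 ^ ((s + 6) * (d * d)) := by
          rw [← pow_add]
          congr 1
          ring
      _ ≤ 2 ^ 275 := Nat.pow_le_pow_right (by norm_num) (by omega)
      _ = (2 ^ 11) ^ 25 := by rw [← pow_mul]
      _ ≤ n ^ 25 := Nat.pow_le_pow_left (by norm_num; exact hn) 25
  calc 2 * d * 8 ^ (d - 1) * n ^ 3 *
        (14 * (Fintype.card (Key (n / 9)) + 1) * Rz n s) ^ (d * d)
      ≤ 2 * d * 8 ^ (d - 1) * n ^ 3 * (2 ^ (s * (d * d)) * n ^ ((s + 6) * (d * d))) :=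
        Nat.mul_le_mul_left _ h5
    _ = 2 * d * 8 ^ (d - 1) * 2 ^ (s * (d * d)) * (n ^ 3 * n ^ ((s + 6) * (d * d))) := by ring
    _ ≤ n ^ 25 * (n ^ 3 * n ^ ((s + 6) * (d * d))) := Nat.mul_le_mul_right _ h7
    _ = n ^ (25 + (3 + (s + 6) * (d * d))) := by rw [pow_add, pow_add]
    _ ≤ n ^ 299 := Nat.pow_le_pow_right (by omega) (by omega)

theorem Rz_pos (n s : ℕ) (hn : 2048 ≤ n) : 0 < Rz n s := by
  unfold Rz
  exact Nat.mul_pos (Nat.pow_pos (by omega)) (Nat.pow_pos (by norm_num))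

theorem Rz_le (n d s : ℕ) (hn : 2048 ≤ n) (hd : 1 ≤ d) (hs : (s + 6) * d ^ 2 ≤ 270) :
    Rz n s ≤ n ^ 299 := by
  have h0 := Rz_pos n s hn
  have h1 : Rz n s ≤ 14 * (Fintype.card (Key (n / 9)) + 1) * Rz n s :=
    Nat.le_mul_of_pos_left _ (by positivity)
  have hdd : d * d ≠ 0 := by positivity
  have h2 : 14 * (Fintype.card (Key (n / 9)) + 1) * Rz n s ≤
      (14 * (Fintype.card (Key (n / 9)) + 1) * Rz n s) ^ (d * d) := Nat.le_self_pow hdd _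
  have h3 : 0 < 2 * d * 8 ^ (d - 1) * n ^ 3 := by
    have : 0 < n := by omega
    positivity
  exact h1.trans (h2.trans ((Nat.le_mul_of_pos_left _ h3).trans (num_main n d s hn hd hs)))

theorem K_pos (n d s : ℕ) (hn : 2048 ≤ n) (hd : 1 ≤ d) (hs : (s + 6) * d ^ 2 ≤ 270) :
    0 < n ^ 299 / Rz n s := Nat.div_pos (Rz_le n d s hn hd hs) (Rz_pos n s hn)

theorem K_lower (n d s : ℕ) (hn : 2048 ≤ n) (hd : 1 ≤ d) (hs : (s + 6) * d ^ 2 ≤ 270) :
    1 / (14 * (Rz n s : ℝ)) ≤ ((n ^ 299 / Rz n s : ℕ) : ℝ) / (7 * ((n ^ 299 : ℕ) : ℝ)) := by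
  have h0 := Rz_pos n s hn
  have hK := K_pos n d s hn hd hs
  set P := n ^ 299 with hPdef
  have hP : 0 < P := Nat.pow_pos (by omega)
  set K := P / Rz n s with hKdef
  have h1 : P < Rz n s * (K + 1) := Nat.lt_mul_div_succ P h0
  have h2 : P ≤ 2 * K * Rz n s := by nlinarith
  have h3 : (P : ℝ) ≤ 2 * K * Rz n s := by exact_mod_cast h2
  have h4 : (0 : ℝ) < Rz n s := by exact_mod_cast h0
  have h5 : (0 : ℝ) < P := by exact_mod_cast hP
  rw [div_le_div_iff₀ (by positivity) (by positivity)]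
  linarith

theorem K_upper (n s : ℕ) (hn : 2048 ≤ n) :
    ((n ^ 299 / Rz n s : ℕ) : ℝ) * Rz n s ≤ ((n ^ 299 : ℕ) : ℝ) := by
  exact_mod_cast Nat.div_mul_le_self (n ^ 299) (Rz n s)

/-- The condition on the robustness. -/
theorem num_om (n d s : ℕ) (hn : 2048 ≤ n) (hd : 1 ≤ d) (hs : (s + 6) * d ^ 2 ≤ 270) :
    ((Fintype.card (Key (n / 9)) : ℝ) + 1) ^ d * d * ((n ^ 3 : ℕ) : ℝ) *
      (8 * ((Fintype.card (Key (n / 9)) + 1 : ℕ) : ℝ) ^ d) ^ (d - 1) / ((n ^ 299 : ℕ) : ℝ) ≤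
      1 / 2 * (((n ^ 299 / Rz n s : ℕ) : ℝ) / (7 * ((n ^ 299 : ℕ) : ℝ))) ^ (d * d) := by
  have h1 := K_lower n d s hn hd hs
  have h0 : (0 : ℝ) < Rz n s := by exact_mod_cast Rz_pos n s hn
  have hmain : ((2 * d * 8 ^ (d - 1) * n ^ 3 *
      (14 * (Fintype.card (Key (n / 9)) + 1) * Rz n s) ^ (d * d) : ℕ) : ℝ) ≤
      ((n ^ 299 : ℕ) : ℝ) := by exact_mod_cast num_main n d s hn hd hs
  have hP : (0 : ℝ) < ((n ^ 299 : ℕ) : ℝ) := by
    have : 0 < n ^ 299 := Nat.pow_pos (by omega)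
    exact_mod_cast this
  have h2 : (1 / (14 * (Rz n s : ℝ))) ^ (d * d) ≤
      (((n ^ 299 / Rz n s : ℕ) : ℝ) / (7 * ((n ^ 299 : ℕ) : ℝ))) ^ (d * d) :=
    pow_le_pow_left₀ (by positivity) h1 _
  refine le_trans ?_ (mul_le_mul_of_nonneg_left h2 (by norm_num))
  set a : ℝ := (Fintype.card (Key (n / 9)) : ℝ) + 1 with ha
  have ha0 : 0 < a := by positivity
  have hcast : ((Fintype.card (Key (n / 9)) + 1 : ℕ) : ℝ) = a := by push_cast; rfl
  have hmain' : 2 * d * 8 ^ (d - 1) * ((n ^ 3 : ℕ) : ℝ) * (14 * a * Rz n s) ^ (d * d) ≤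
      ((n ^ 299 : ℕ) : ℝ) := by
    refine le_trans (le_of_eq ?_) hmain
    push_cast
    rfl
  rw [hcast, mul_pow, ← pow_mul, div_le_iff₀ hP, one_div_pow]
  have e1 : a ^ d * a ^ (d * (d - 1)) = a ^ (d * d) := by
    rw [← pow_add]
    congr 1
    obtain ⟨k, rfl⟩ : ∃ k, d = k + 1 := ⟨d - 1, by omega⟩
    rw [Nat.add_sub_cancel]
    ring
  have e2 : (14 * a * (Rz n s : ℝ)) ^ (d * d) = a ^ (d * d) * (14 * (Rz n s : ℝ)) ^ (d * d) := by
    rw [← mul_pow]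
    congr 1
    ring
  have h14 : (0 : ℝ) < (14 * (Rz n s : ℝ)) ^ (d * d) := by positivity
  rw [e2] at hmain'
  have e3 : 1 / 2 * (1 / (14 * (Rz n s : ℝ)) ^ (d * d)) * ((n ^ 299 : ℕ) : ℝ) =
      ((n ^ 299 : ℕ) : ℝ) / (2 * (14 * (Rz n s : ℝ)) ^ (d * d)) := by
    field_simp
  rw [e3, le_div_iff₀ (by positivity)]
  calc a ^ d * d * ((n ^ 3 : ℕ) : ℝ) * (8 ^ (d - 1) * a ^ (d * (d - 1))) *
        (2 * (14 * (Rz n s : ℝ)) ^ (d * d))
      = 2 * d * 8 ^ (d - 1) * ((n ^ 3 : ℕ) : ℝ) * ((a ^ d * a ^ (d * (d - 1))) *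
        (14 * (Rz n s : ℝ)) ^ (d * d)) := by ring
    _ ≤ ((n ^ 299 : ℕ) : ℝ) := by rw [e1]; exact hmain'

theorem zetd_pow (d : ℕ) : zetd d ^ (2 * 20 ^ d) ≤ 1 / 2 := by
  have h1 : zetd d ≤ Real.exp (-((1 / 20) ^ d / 2)) := by
    unfold zetd
    have := Real.add_one_le_exp (-((1 / 20 : ℝ) ^ d / 2))
    linarith
  have h2 : zetd d ^ (2 * 20 ^ d) ≤ Real.exp (-((1 / 20) ^ d / 2)) ^ (2 * 20 ^ d) :=
    pow_le_pow_left₀ (zetd_nonneg d) h1 _
  refine h2.trans ?_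
  rw [← Real.exp_nat_mul]
  have h3 : ((2 * 20 ^ d : ℕ) : ℝ) * (-((1 / 20) ^ d / 2)) = -1 := by
    push_cast
    have : (20 : ℝ) ^ d * (1 / 20) ^ d = 1 := by
      rw [← mul_pow]
      norm_num
    linarith
  rw [h3, Real.exp_neg, one_div]
  refine inv_anti₀ (by norm_num) ?_
  have := Real.add_one_le_exp (1 : ℝ)
  linarith

/-- The exceptional part is small. -/
theorem small_exc3 (n d s D : ℕ) (hn : 2048 ≤ n) (hd : 1 ≤ d) (hs : (s + 6) * d ^ 2 ≤ 270)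
    (hD : D ≤ s * (Nat.log 2 n + 1)) :
    32 * ((n / 9 : ℕ) : ℝ) ^ 3 * ((2 ^ D - 1) *
      (zetd d ^ (2 * 20 ^ d * ((s + 3) * (Nat.log 2 n + 1))) * 2 +
        d * d * ((n ^ 299 / Rz n s : ℕ) : ℝ) / (10 * ((n ^ 299 : ℕ) : ℝ)) * 10 ^ d)) ≤
      1 + 10 ^ d := by
  have hK := K_upper n s hn
  have h0 : (0 : ℝ) < Rz n s := by exact_mod_cast Rz_pos n s hn
  set L := Nat.log 2 n + 1 with hL
  have hn0 : (0 : ℝ) < n := by
    have : 0 < n := by omega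
    exact_mod_cast this
  have hn1 : (2048 : ℝ) ≤ n := by exact_mod_cast hn
  have hup : (n : ℝ) ≤ 2 ^ L := by
    have := Nat.lt_pow_succ_log_self (show 1 < 2 by norm_num) n
    have h2 : n ≤ 2 ^ L := by
      rw [hL]
      exact this.le
    exact_mod_cast h2
  have hP : (0 : ℝ) < ((n ^ 299 : ℕ) : ℝ) := by
    have : 0 < n ^ 299 := Nat.pow_pos (by omega)
    exact_mod_cast this
  set T : ℝ := 2 ^ (s * L) with hT
  have hT0 : 0 < T := by positivity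
  have hRT : (Rz n s : ℝ) = n ^ 4 * T := by
    unfold Rz
    push_cast
    rfl
  have h2D : (2 : ℝ) ^ D - 1 ≤ T := by
    have : (2 : ℝ) ^ D ≤ T := pow_le_pow_right₀ (by norm_num) hD
    linarith
  have h2D0 : (0 : ℝ) ≤ 2 ^ D - 1 := by
    have : (1 : ℝ) ≤ 2 ^ D := one_le_pow₀ (by norm_num)
    linarith
  set z : ℝ := zetd d ^ (2 * 20 ^ d * ((s + 3) * L)) with hz
  have hz0 : 0 ≤ z := pow_nonneg (zetd_nonneg d) _
  have hz1 : T * z * n ^ 3 ≤ 1 := by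
    have e1 : z ≤ (1 / 2) ^ ((s + 3) * L) := by
      rw [hz, pow_mul]
      exact pow_le_pow_left₀ (pow_nonneg (zetd_nonneg d) _) (zetd_pow d) _
    have e2 : (n : ℝ) ^ 3 ≤ (2 ^ L) ^ 3 := pow_le_pow_left₀ hn0.le hup 3
    have e3 : T * (1 / 2) ^ ((s + 3) * L) * (2 ^ L) ^ 3 = 1 := by
      rw [hT, one_div_pow, ← pow_mul]
      have : (2 : ℝ) ^ ((s + 3) * L) = 2 ^ (s * L) * 2 ^ (L * 3) := by
        rw [← pow_add]
        congr 1
        ring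
      rw [this]
      field_simp
    calc T * z * n ^ 3 ≤ T * (1 / 2) ^ ((s + 3) * L) * (2 ^ L) ^ 3 :=
          mul_le_mul (mul_le_mul_of_nonneg_left e1 hT0.le) e2 (by positivity) (by positivity)
      _ = 1 := e3
  set ε : ℝ := d * d * ((n ^ 299 / Rz n s : ℕ) : ℝ) / (10 * ((n ^ 299 : ℕ) : ℝ)) with hε
  have hε0 : 0 ≤ ε := by positivity
  have hdd : ((d : ℝ) * d) ≤ 45 := by
    have h1 : 6 * d ^ 2 ≤ (s + 6) * d ^ 2 := Nat.mul_le_mul_right _ (by omega)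
    have h2 : d * d ≤ 45 := by
      rw [← pow_two]
      omega
    exact_mod_cast h2
  have hε1 : T * ε * n ^ 4 ≤ 9 / 2 := by
    have e1 : ((n ^ 299 / Rz n s : ℕ) : ℝ) * (n ^ 4 * T) / ((n ^ 299 : ℕ) : ℝ) ≤ 1 := by
      rw [div_le_one hP, ← hRT]
      exact hK
    have e0 : 0 ≤ ((n ^ 299 / Rz n s : ℕ) : ℝ) * (n ^ 4 * T) / ((n ^ 299 : ℕ) : ℝ) := by
      positivity
    calc T * ε * n ^ 4 = (d * d / 10) *
          (((n ^ 299 / Rz n s : ℕ) : ℝ) * (n ^ 4 * T) / ((n ^ 299 : ℕ) : ℝ)) := by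
          rw [hε]
          field_simp
      _ ≤ (45 / 10) * 1 := mul_le_mul (by linarith) e1 e0 (by norm_num)
      _ = 9 / 2 := by norm_num
  set M : ℝ := ((n / 9 : ℕ) : ℝ) with hM
  have hM0 : 0 ≤ M := Nat.cast_nonneg _
  have h9M : 9 * M ≤ n := by
    have : 9 * (n / 9) ≤ n := Nat.mul_div_le n 9
    rw [hM]
    exact_mod_cast this
  have hM3 : 729 * M ^ 3 ≤ n ^ 3 := by
    have := pow_le_pow_left₀ (by positivity) h9M 3
    calc 729 * M ^ 3 = (9 * M) ^ 3 := by ring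
      _ ≤ _ := this
  have h10 : (0 : ℝ) < 10 ^ d := by positivity
  have t1 : 32 * M ^ 3 * ((2 ^ D - 1) * (z * 2)) ≤ 1 := by
    have hTz : 0 ≤ T * z := by positivity
    calc 32 * M ^ 3 * ((2 ^ D - 1) * (z * 2)) ≤ 32 * M ^ 3 * (T * (z * 2)) := by
          refine mul_le_mul_of_nonneg_left ?_ (by positivity)
          exact mul_le_mul_of_nonneg_right h2D (by positivity)
      _ = (64 / 729) * ((T * z) * (729 * M ^ 3)) := by ring
      _ ≤ (64 / 729) * ((T * z) * n ^ 3) :=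
          mul_le_mul_of_nonneg_left (mul_le_mul_of_nonneg_left hM3 hTz) (by norm_num)
      _ ≤ (64 / 729) * 1 := mul_le_mul_of_nonneg_left hz1 (by norm_num)
      _ ≤ 1 := by norm_num
  have t2 : 32 * M ^ 3 * ((2 ^ D - 1) * (ε * 10 ^ d)) ≤ 10 ^ d := by
    have hTε : 0 ≤ T * ε := by positivity
    have e1 : (T * ε) * n ^ 3 ≤ 1 := by
      have e2 : (T * ε) * n ^ 3 * 2048 ≤ T * ε * n ^ 4 := by
        calc (T * ε) * n ^ 3 * 2048 ≤ (T * ε) * n ^ 3 * n :=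
              mul_le_mul_of_nonneg_left hn1 (by positivity)
          _ = T * ε * n ^ 4 := by ring
      linarith
    calc 32 * M ^ 3 * ((2 ^ D - 1) * (ε * 10 ^ d)) ≤ 32 * M ^ 3 * (T * (ε * 10 ^ d)) := by
          refine mul_le_mul_of_nonneg_left ?_ (by positivity)
          exact mul_le_mul_of_nonneg_right h2D (by positivity)
      _ = (32 / 729) * ((T * ε) * (729 * M ^ 3)) * 10 ^ d := by ring
      _ ≤ (32 / 729) * ((T * ε) * n ^ 3) * 10 ^ d :=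
          mul_le_mul_of_nonneg_right
            (mul_le_mul_of_nonneg_left (mul_le_mul_of_nonneg_left hM3 hTε) (by norm_num)) h10.le
      _ ≤ (32 / 729) * 1 * 10 ^ d :=
          mul_le_mul_of_nonneg_right (mul_le_mul_of_nonneg_left e1 (by norm_num)) h10.le
      _ ≤ 10 ^ d := by linarith
  calc 32 * M ^ 3 * ((2 ^ D - 1) * (z * 2 + ε * 10 ^ d))
      = 32 * M ^ 3 * ((2 ^ D - 1) * (z * 2)) + 32 * M ^ 3 * ((2 ^ D - 1) * (ε * 10 ^ d)) := by
        ring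
    _ ≤ 1 + 10 ^ d := add_le_add t1 t2

end Pool.Agent.Helper21.UV3
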