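import Pool.Agent.Helper21.UV3.Restrict

/-!
# The reading phases for polynomials
-/

set_option autoImplicit false
set_option linter.unusedSectionVars false

open Finset
open scoped BigOperators

namespace Pool.Agent.Helper21.UV3

open Pool.Agent.Helper22.ETModel Pool.Agent.Helper8.VT Pool.Agent.Helper8.UV
open Pool.Agent.Helper21.UV

section
variable {n m q P : ℕ}

/-- The monomial `s` is a top monomial of `g`. -/
def IsTop (Λ : ℝ) (P : ℕ) (g : MvPolynomial (Key m) ℝ) (s : Key m →₀ ℕ) : Prop :=
  s ∈ g.support ∧ s ≠ 0 ∧ ∀ u ∈ g.support, u ≠ 0 →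
    |g.coeff u| * (Λ * P) ^ u.degree ≤ |g.coeff s| * (Λ * P) ^ s.degree

open Classical in
/-- A top monomial. -/
noncomputable def topm (Λ : ℝ) (P : ℕ) (g : MvPolynomial (Key m) ℝ) : Option (Key m →₀ ℕ) :=
  if h : ∃ s, IsTop Λ P g s then some h.choose else none

theorem topm_some {Λ : ℝ} {g : MvPolynomial (Key m) ℝ} {s : Key m →₀ ℕ}
    (h : topm Λ P g = some s) : IsTop Λ P g s := by
  unfold topm at h
  split_ifs at h with h'
  simp only [Option.some.injEq] at h
  rw [← h]
  exact h'.choose_spec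

theorem topm_none {Λ : ℝ} {g : MvPolynomial (Key m) ℝ} (h : topm Λ P g = none) :
    ∀ u ∈ g.support, u = 0 := by
  classical
  unfold topm at h
  split_ifs at h with h'
  by_contra hcon
  push Not at hcon
  obtain ⟨u, hu, hu0⟩ := hcon
  have hne : (g.support.filter fun u => u ≠ 0).Nonempty := ⟨u, by simp [hu0] at hu ⊢; exact hu⟩
  obtain ⟨s, hs, hmax⟩ := Finset.exists_max_image _
    (fun u => |g.coeff u| * (Λ * P) ^ u.degree) hne
  rw [Finset.mem_filter] at hs
  exact h' ⟨s, hs.1, hs.2, fun u hu hu0 => hmax u (Finset.mem_filter.2 ⟨hu, hu0⟩)⟩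

theorem eval_const {g : MvPolynomial (Key m) ℝ} (h : ∀ u ∈ g.support, u = 0)
    (W W' : Key m → ℝ) : MvPolynomial.eval W g = MvPolynomial.eval W' g := by
  rw [MvPolynomial.eval_eq', MvPolynomial.eval_eq']
  refine Finset.sum_congr rfl fun u hu => ?_
  rw [h u hu]
  simp

/-- The threshold. -/
noncomputable def thr (ω : ℝ) (P : ℕ) (g : MvPolynomial (Key m) ℝ) (s : Key m →₀ ℕ) : ℝ :=
  |g.coeff s| * P ^ s.degree * ω

/-- The reading phase of a sign query. The list contains the variables of the chosen monomial that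
have not been read. -/
noncomputable def phaseP (q P : ℕ) (Λ ω : ℝ) (μ : Key m → Fin (10 * P)) (v : Key m → ℝ)
    (p : MvPolynomial (Fin n × Fin n) ℝ) (L : ℝ) (nxt : Finset (Key m) → Prop) :
    ℕ → Finset (Key m) → List (Key m) → Prop
  | 0, _, _ => True
  | f + 1, A, [] =>
    match topm Λ P (RR m q A v p) with
    | none => nxt A
    | some s => ((∀ e ∈ s.support, (μ e : ℕ) < P) ∧ |L| ≤ thr ω P (RR m q A v p) s) ∨
        phaseP q P Λ ω μ v p L nxt f A s.support.toList
  | f + 1, A, e :: l =>
    if (μ e : ℕ) < P then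
      (if l = [] then nxt (insert e A) else phaseP q P Λ ω μ v p L nxt f (insert e A) l)
    else phaseP q P Λ ω μ v p L nxt f (insert e A) []

/-- The moment of the reading phase. -/
noncomputable def phaseQ (q P : ℕ) (Λ lam : ℝ) (μ : Key m → Fin (10 * P)) (v : Key m → ℝ)
    (p : MvPolynomial (Fin n × Fin n) ℝ) (nxt : Finset (Key m) → ℝ) :
    ℕ → Finset (Key m) → List (Key m) → ℝ
  | 0, _, _ => 1
  | f + 1, A, [] =>
    match topm Λ P (RR m q A v p) with
    | none => nxt A
    | some s => phaseQ q P Λ lam μ v p nxt f A s.support.toList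
  | f + 1, A, e :: l => lam *
    if (μ e : ℕ) < P then
      (if l = [] then nxt (insert e A) else phaseQ q P Λ lam μ v p nxt f (insert e A) l)
    else phaseQ q P Λ lam μ v p nxt f (insert e A) []

open Classical in
/-- The run from the set `A` of read variables is exceptional. -/
noncomputable def PTree.exc {d : ℕ} (c1 q P : ℕ) (Λ ω : ℝ) (μ : Key m → Fin (10 * P)) (w : Wts n)
    (v : Key m → ℝ) : {B D : ℕ} → PTree n d B D → Finset (Key m) → Prop
  | _, _, .leaf _, _ => False
  | _, _, .probe i j next, A => (next (w i j)).exc c1 q P Λ ω μ w v (addKey m i j A)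
  | _, _, .sign p _ next, A =>
    phaseP q P Λ ω μ v p (pval p w)
      (fun A' => (next (decide (0 ≤ pval p w))).exc c1 q P Λ ω μ w v A') c1 A []

/-- The same with both answers allowed at the sign queries. -/
noncomputable def PTree.excN {d : ℕ} (c1 q P : ℕ) (Λ ω : ℝ) (μ : Key m → Fin (10 * P)) (w : Wts n)
    (v : Key m → ℝ) : {B D : ℕ} → PTree n d B D → Finset (Key m) → Prop
  | _, _, .leaf _, _ => False
  | _, _, .probe i j next, A => (next (w i j)).excN c1 q P Λ ω μ w v (addKey m i j A)
  | _, _, .sign p _ next, A =>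
    phaseP q P Λ ω μ v p (pval p w)
      (fun A' => ∃ b : Bool, (next b).excN c1 q P Λ ω μ w v A') c1 A []

/-- The moment of the total number of variables read in the phases, summed over all answers to the
sign queries. -/
noncomputable def PTree.mom {d : ℕ} (c1 q P : ℕ) (Λ lam : ℝ) (μ : Key m → Fin (10 * P)) (w : Wts n)
    (v : Key m → ℝ) : {B D : ℕ} → PTree n d B D → Finset (Key m) → ℝ
  | _, _, .leaf _, _ => 1
  | _, _, .probe i j next, A => (next (w i j)).mom c1 q P Λ lam μ w v (addKey m i j A)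
  | _, _, .sign p _ next, A =>
    phaseQ q P Λ lam μ v p (fun A' => ∑ b : Bool, (next b).mom c1 q P Λ lam μ w v A') c1 A []

theorem phaseP_mono {Λ ω : ℝ} {μ : Key m → Fin (10 * P)} {v : Key m → ℝ}
    {p : MvPolynomial (Fin n × Fin n) ℝ} {L : ℝ}
    {nxt nxt' : Finset (Key m) → Prop} (h : ∀ A, nxt A → nxt' A) :
    ∀ (f : ℕ) (A : Finset (Key m)) (l : List (Key m)), phaseP q P Λ ω μ v p L nxt f A l →
      phaseP q P Λ ω μ v p L nxt' f A l := by
  intro f
  induction f with
  | zero => intro A l _; unfold phaseP; trivial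
  | succ f ih =>
    intro A l hA
    rcases l with _ | ⟨e, l⟩
    · unfold phaseP at hA ⊢
      rcases htop : topm Λ P (RR m q A v p) with _ | s
      · rw [htop] at hA
        exact h _ hA
      · rw [htop] at hA
        exact hA.imp id (ih _ _)
    · unfold phaseP at hA ⊢
      split_ifs at hA ⊢
      · exact h _ hA
      · exact ih _ _ hA
      · exact ih _ _ hA

theorem PTree.excN_of_exc {c1 : ℕ} {Λ ω : ℝ} {μ : Key m → Fin (10 * P)} {w : Wts n}
    {v : Key m → ℝ} {d B D : ℕ} (t : PTree n d B D) :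
    ∀ A, t.exc c1 q P Λ ω μ w v A → t.excN c1 q P Λ ω μ w v A := by
  induction t with
  | leaf v => intro A h; exact h
  | probe i j next ih => intro A h; exact ih _ _ h
  | sign p hp next ih =>
    intro A h
    exact phaseP_mono (fun A' hA' => ⟨_, ih _ A' hA'⟩) _ _ _ h

theorem one_le_phaseQ {Λ lam : ℝ} (hl : 1 ≤ lam) (μ : Key m → Fin (10 * P)) (v : Key m → ℝ)
    (p : MvPolynomial (Fin n × Fin n) ℝ) (nxt : Finset (Key m) → ℝ)
    (h : ∀ A, 1 ≤ nxt A) : ∀ (f : ℕ) (A : Finset (Key m)) (l : List (Key m)),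
      1 ≤ phaseQ q P Λ lam μ v p nxt f A l := by
  intro f
  induction f with
  | zero => intro A l; unfold phaseQ; exact le_rfl
  | succ f ih =>
    intro A l
    rcases l with _ | ⟨e, l⟩
    · unfold phaseQ
      rcases htop : topm Λ P (RR m q A v p) with _ | s
      · exact h A
      · exact ih _ _
    · unfold phaseQ
      split_ifs
      · exact one_le_mul_of_one_le_of_one_le hl (h _)
      · exact one_le_mul_of_one_le_of_one_le hl (ih _ _)
      · exact one_le_mul_of_one_le_of_one_le hl (ih _ _)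

theorem one_le_mom {Λ lam : ℝ} (hl : 1 ≤ lam) (c1 : ℕ) (μ : Key m → Fin (10 * P)) (w : Wts n)
    (v : Key m → ℝ) {d B D : ℕ} (t : PTree n d B D) :
    ∀ A, 1 ≤ t.mom c1 q P Λ lam μ w v A := by
  induction t with
  | leaf v => intro A; exact le_rfl
  | probe i j next ih => intro A; exact ih _ _
  | sign p hp next ih =>
    intro A
    refine one_le_phaseQ hl μ _ _ _ (fun A' => ?_) _ _ _
    simp only [Fintype.sum_bool]
    linarith [ih true A', ih false A']

end

end Pool.Agent.Helper21.UV3
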