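import Pool.Agent.Helper21.UV3.Model
import Pool.Agent.Helper21.UV.Aff

/-!
# Polynomials in the unread variables
-/

set_option autoImplicit false
set_option linter.unusedSectionVars false

open Finset
open scoped BigOperators

namespace Pool.Agent.Helper21.UV3

open Pool.Agent.Helper22.ETModel Pool.Agent.Helper8.VT Pool.Agent.Helper8.UV
open Pool.Agent.Helper21.UV

section
variable {n m q P : ℕ}

/-- The value in a cell as a function of the values of the variables. -/
def cellv (m q : ℕ) (W : Key m → ℝ) (c : Fin n × Fin n) : ℝ :=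
  match key m c.1 c.2 with
  | none => 10 * q
  | some (e, _) => W e - (cpy m q c.1 c.2 : ℝ)

/-- The value of a polynomial as a function of the values of the variables. -/
noncomputable def pv (m q : ℕ) (p : MvPolynomial (Fin n × Fin n) ℝ) (W : Key m → ℝ) : ℝ :=
  MvPolynomial.eval (cellv m q W) p

theorem pval_WM (p : MvPolynomial (Fin n × Fin n) ℝ) (μ : Key m → Fin (10 * P))
    (X Y Z : Cfg m q) : pval p (WM n P μ X Y Z) = pv m q p (tot q P μ X Y Z) := by
  unfold pval pv
  congr 1
  congr 1
  funext c
  have hcv : cellv m q (tot q P μ X Y Z) c = match key m c.1 c.2 with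
    | none => (10 * q : ℝ)
    | some (e, _) => tot q P μ X Y Z e - (cpy m q c.1 c.2 : ℝ) := rfl
  rw [hcv]
  rcases hk : key m c.1 c.2 with _ | ⟨e, s⟩
  · rw [WM_none μ X Y Z c.1 c.2 hk]
    push_cast
    rfl
  · rw [WM_some μ X Y Z c.1 c.2 e s hk]
    simp only [tot]
    push_cast
    ring

/-- The cell as a polynomial in the unread variables. -/
noncomputable def cellP (m q : ℕ) (A : Finset (Key m)) (v : Key m → ℝ) (c : Fin n × Fin n) :
    MvPolynomial (Key m) ℝ :=
  match key m c.1 c.2 with
  | none => MvPolynomial.C (10 * q : ℝ)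
  | some (e, _) => (if e ∈ A then MvPolynomial.C (v e) else MvPolynomial.X e) -
      MvPolynomial.C (cpy m q c.1 c.2 : ℝ)

/-- The polynomial in the unread variables. -/
noncomputable def RR (m q : ℕ) (A : Finset (Key m)) (v : Key m → ℝ)
    (p : MvPolynomial (Fin n × Fin n) ℝ) : MvPolynomial (Key m) ℝ :=
  MvPolynomial.bind₁ (cellP m q A v) p

theorem RR_congr {A : Finset (Key m)} {v v' : Key m → ℝ} (h : ∀ e ∈ A, v e = v' e)
    (p : MvPolynomial (Fin n × Fin n) ℝ) : RR m q A v p = RR m q A v' p := by
  unfold RR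
  congr 1
  congr 1
  funext c
  unfold cellP
  rcases key m c.1 c.2 with _ | ⟨e, s⟩
  · rfl
  · simp only
    by_cases he : e ∈ A
    · rw [if_pos he, if_pos he, h e he]
    · rw [if_neg he, if_neg he]

theorem RR_eval {A : Finset (Key m)} {v W : Key m → ℝ} (h : ∀ e ∈ A, W e = v e)
    (p : MvPolynomial (Fin n × Fin n) ℝ) :
    MvPolynomial.eval W (RR m q A v p) = pv m q p W := by
  unfold RR pv
  rw [MvPolynomial.hom_bind₁]
  have : (fun c : Fin n × Fin n => MvPolynomial.eval W (cellP m q A v c)) = cellv m q W := by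
    funext c
    unfold cellP cellv
    rcases key m c.1 c.2 with _ | ⟨e, s⟩
    · simp
    · simp only
      by_cases he : e ∈ A
      · rw [if_pos he]
        simp [h e he]
      · rw [if_neg he]
        simp
  rw [this]
  have h2 : (MvPolynomial.eval W).comp MvPolynomial.C = RingHom.id ℝ := by
    ext x
    simp
  rw [h2]
  rfl

theorem cellP_deg (A : Finset (Key m)) (v : Key m → ℝ) (c : Fin n × Fin n) :
    (cellP m q A v c).totalDegree ≤ 1 := by
  unfold cellP
  rcases key m c.1 c.2 with _ | ⟨e, s⟩
  · simp only [MvPolynomial.totalDegree_C]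
    exact Nat.zero_le _
  · simp only
    refine (MvPolynomial.totalDegree_sub_C_le _ _).trans ?_
    by_cases he : e ∈ A
    · rw [if_pos he, MvPolynomial.totalDegree_C]
      exact Nat.zero_le _
    · rw [if_neg he, MvPolynomial.totalDegree_X]

theorem bind_deg {σ τ : Type} (f : σ → MvPolynomial τ ℝ) (hf : ∀ i, (f i).totalDegree ≤ 1)
    (p : MvPolynomial σ ℝ) : (MvPolynomial.bind₁ f p).totalDegree ≤ p.totalDegree := by
  classical
  conv_lhs => rw [p.as_sum]
  rw [map_sum]
  refine (MvPolynomial.totalDegree_finsetSum _ _).trans (Finset.sup_le fun u hu => ?_)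
  rw [MvPolynomial.bind₁_monomial]
  refine (MvPolynomial.totalDegree_mul _ _).trans ?_
  rw [MvPolynomial.totalDegree_C, zero_add]
  refine (MvPolynomial.totalDegree_finsetProd _ _).trans ?_
  refine le_trans ?_ (MvPolynomial.le_totalDegree hu)
  unfold Finsupp.sum
  refine Finset.sum_le_sum fun i _ => ?_
  refine (MvPolynomial.totalDegree_pow _ _).trans ?_
  have := hf i
  nlinarith

theorem RR_deg (A : Finset (Key m)) (v : Key m → ℝ) (p : MvPolynomial (Fin n × Fin n) ℝ) {d : ℕ}
    (hp : p.totalDegree ≤ d) (u : Key m →₀ ℕ) (hu : u ∈ (RR m q A v p).support) :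
    u.degree ≤ d := by
  have h1 := MvPolynomial.le_totalDegree hu
  have h2 : (RR m q A v p).totalDegree ≤ d := (bind_deg _ (cellP_deg A v) p).trans hp
  exact h1.trans h2

theorem cellP_vars (A : Finset (Key m)) (v : Key m → ℝ) (c : Fin n × Fin n) (e : Key m)
    (he : e ∈ A) : e ∉ (cellP m q A v c).vars := by
  classical
  unfold cellP
  rcases key m c.1 c.2 with _ | ⟨e', s⟩
  · simp only
    rw [MvPolynomial.vars_C]
    exact Finset.notMem_empty _
  · simp only
    intro h
    have h1 := MvPolynomial.vars_sub_subset _ h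
    rw [Finset.mem_union, MvPolynomial.vars_C] at h1
    rcases h1 with h1 | h1
    · by_cases he' : e' ∈ A
      · rw [if_pos he', MvPolynomial.vars_C] at h1
        simp at h1
      · rw [if_neg he', MvPolynomial.vars_X, Finset.mem_singleton] at h1
        rw [h1] at he
        exact he' he
    · simp at h1

theorem RR_vars (A : Finset (Key m)) (v : Key m → ℝ) (p : MvPolynomial (Fin n × Fin n) ℝ)
    (u : Key m →₀ ℕ) (hu : u ∈ (RR m q A v p).support) (e : Key m) (he : e ∈ A) : u e = 0 := by
  classical
  by_contra hne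
  have h1 : e ∈ (RR m q A v p).vars := by
    rw [MvPolynomial.mem_vars_iff_mem_support]
    exact ⟨u, hu, by simpa using hne⟩
  have h2 := MvPolynomial.vars_bind₁ _ _ h1
  rw [Finset.mem_biUnion] at h2
  obtain ⟨c, _, hc⟩ := h2
  exact cellP_vars A v c e he hc

end

end Pool.Agent.Helper21.UV3
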